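import Mathlib

set_option autoImplicit false

/-!
# Inverse monoids with a central right unit that every generator divides

`IsInv i`: the map `i` makes the monoid `M` an inverse monoid.
-/

namespace Pool.Agent.Q97.FF

/-- the axioms of inverse monoids -/
structure IsInv {M : Type*} [Monoid M] (i : M → M) : Prop where
  ii : ∀ a, i (i a) = a
  im : ∀ a b, i (a * b) = i b * i a
  reg : ∀ a, a * i a * a = a
  comm : ∀ a b, a * i a * (b * i b) = b * i b * (a * i a)

section
variable {M : Type*} [Monoid M] {i : M → M} (hi : IsInv i)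
include hi

theorem IsInv.one : i 1 = 1 := by
  have h := hi.reg 1
  simpa using h

theorem IsInv.comm' (a b : M) : i a * a * (b * i b) = b * i b * (i a * a) := by
  have h := hi.comm (i a) b
  rwa [hi.ii] at h

theorem IsInv.comm'' (a b : M) : i a * a * (i b * b) = i b * b * (i a * a) := by
  have h := hi.comm (i a) (i b)
  rwa [hi.ii, hi.ii] at h

theorem IsInv.reg' (a : M) : i a * a * i a = i a := by
  have h := hi.reg (i a)
  rwa [hi.ii] at h

/-- idempotents are fixed -/
theorem IsInv.idem {e : M} (he : e * e = e) : i e = e := by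
  have h1 : i e * i e = i e := by rw [← hi.im, he]
  -- `e = e * i e * e`
  have h2 := hi.reg e
  have h3 := hi.reg' e
  have e1 : e * i e * (i e * e) = i e * e * (e * i e) := (hi.comm' e e).symm
  have e2 : e * i e * (i e * e) = e := by
    calc e * i e * (i e * e) = e * (i e * i e) * e := by simp only [mul_assoc]
      _ = e := by rw [h1, h2]
  have e3 : i e * e * (e * i e) = i e := by
    calc i e * e * (e * i e) = i e * (e * e) * i e := by simp only [mul_assoc]
      _ = i e := by rw [he, h3]
  rw [← e3, ← e1, e2]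

theorem IsInv.idem_comm {e f : M} (he : e * e = e) (hf : f * f = f) : e * f = f * e := by
  have h := hi.comm e f
  rwa [hi.idem he, hi.idem hf, he, hf] at h

theorem IsInv.idem_mul {e f : M} (he : e * e = e) (hf : f * f = f) : (e * f) * (e * f) = e * f := by
  calc (e * f) * (e * f) = e * (f * e) * f := by simp only [mul_assoc]
    _ = e * (e * f) * f := by rw [hi.idem_comm hf he]
    _ = (e * e) * (f * f) := by simp only [mul_assoc]
    _ = e * f := by rw [he, hf]

theorem IsInv.idem_r (a : M) : (a * i a) * (a * i a) = a * i a := by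
  rw [← mul_assoc, hi.reg]

theorem IsInv.idem_l (a : M) : (i a * a) * (i a * a) = i a * a := by
  rw [← mul_assoc, hi.reg']

/-- a right unit -/
theorem IsInv.right {a b : M} (h : a * b = 1) : a * i a = 1 := by
  calc a * i a = a * i a * (a * b) := by rw [h, mul_one]
    _ = (a * i a * a) * b := by simp only [mul_assoc]
    _ = 1 := by rw [hi.reg, h]

/-- idempotents pass through an element -/
theorem IsInv.pass {e : M} (he : e * e = e) (a : M) : a * e = (a * e * i a) * a := by
  have h := hi.idem_comm he (hi.idem_l a)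
  calc a * e = (a * i a * a) * e := by rw [hi.reg]
    _ = a * (i a * a * e) := by simp only [mul_assoc]
    _ = a * (e * (i a * a)) := by rw [h]
    _ = (a * e * i a) * a := by simp only [mul_assoc]

theorem IsInv.pass_idem {e : M} (he : e * e = e) (a : M) :
    (a * e * i a) * (a * e * i a) = a * e * i a := by
  have h := hi.idem_comm he (hi.idem_l a)
  calc (a * e * i a) * (a * e * i a) = a * (e * (i a * a)) * (e * i a) := by
        simp only [mul_assoc]
    _ = a * (i a * a * e) * (e * i a) := by rw [h]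
    _ = (a * i a * a) * (e * e) * i a := by simp only [mul_assoc]
    _ = a * e * i a := by rw [hi.reg, he]

end

/-- the data: generators `g x`, all right units, commuting with `t = g x₀`, dividing a power of
`t`. -/
structure Shift {M : Type*} [Monoid M] (i : M → M) {A : Type*} (g : A → M) (t : M) : Prop where
  hi : IsInv i
  gen : Submonoid.closure (Set.range g ∪ Set.range (fun x => i (g x))) = ⊤
  run : ∀ x, g x * i (g x) = 1
  ht : t ∈ Submonoid.closure (Set.range g)
  cen : ∀ x, g x * t = t * g x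
  div : ∀ x, ∃ p ∈ Submonoid.closure (Set.range g), ∃ k : ℕ, p * g x = t ^ k

namespace Shift

variable {M : Type*} [Monoid M] {i : M → M} {A : Type*} {g : A → M} {t : M} (S : Shift i g t)

/-- the positive part -/
abbrev Pos (g : A → M) : Submonoid M := Submonoid.closure (Set.range g)

include S

theorem t_mem (k : ℕ) : t ^ k ∈ Pos g := pow_mem S.ht k

theorem comm_t {a : M} (ha : a ∈ Pos g) (k : ℕ) : a * t ^ k = t ^ k * a := by
  have h1 : ∀ a ∈ Pos g, a * t = t * a := by
    intro a ha
    induction ha using Submonoid.closure_induction with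
    | mem x hx => obtain ⟨x, rfl⟩ := hx; exact S.cen x
    | one => rw [one_mul, mul_one]
    | mul x y _ _ hx hy => rw [mul_assoc, hy, ← mul_assoc, hx, mul_assoc]
  induction k with
  | zero => rw [pow_zero, one_mul, mul_one]
  | succ k ih => rw [pow_succ, ← mul_assoc, ih, mul_assoc, h1 a ha, mul_assoc]

theorem unit_pos {a : M} (ha : a ∈ Pos g) : a * i a = 1 := by
  induction ha using Submonoid.closure_induction with
  | mem x hx => obtain ⟨x, rfl⟩ := hx; exact S.run x
  | one => rw [S.hi.one, one_mul]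
  | mul x y _ _ hx hy =>
    rw [S.hi.im, mul_assoc, ← mul_assoc y, hy, one_mul, hx]

theorem cancel {a b c : M} (hc : c ∈ Pos g) (h : a * c = b * c) : a = b := by
  have h1 := congrArg (· * i c) h
  simp only [mul_assoc, S.unit_pos hc, mul_one] at h1
  exact h1

/-- every positive element divides a power of `t` on both sides -/
theorem divides {a : M} (ha : a ∈ Pos g) : ∃ p ∈ Pos g, ∃ k : ℕ, p * a = t ^ k ∧ a * p = t ^ k := by
  induction ha using Submonoid.closure_induction with
  | mem x hx =>
    obtain ⟨x, rfl⟩ := hx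
    obtain ⟨p, hp, k, hk⟩ := S.div x
    have hx : g x ∈ Pos g := Submonoid.subset_closure ⟨x, rfl⟩
    refine ⟨p, hp, k, hk, ?_⟩
    apply S.cancel hx
    rw [mul_assoc, hk, S.comm_t hx]
  | one => exact ⟨1, one_mem _, 0, by simp, by simp⟩
  | mul x y hx hy ihx ihy =>
    obtain ⟨p, hp, k, h1, h2⟩ := ihx
    obtain ⟨q, hq, l, h3, h4⟩ := ihy
    refine ⟨q * p, mul_mem hq hp, k + l, ?_, ?_⟩
    · calc q * p * (x * y) = q * (p * x) * y := by simp only [mul_assoc]
        _ = q * (t ^ k * y) := by rw [h1, mul_assoc]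
        _ = (q * y) * t ^ k := by rw [← S.comm_t hy, mul_assoc]
        _ = t ^ (k + l) := by rw [h3, ← pow_add, add_comm]
    · calc x * y * (q * p) = x * (y * q) * p := by simp only [mul_assoc]
        _ = x * (t ^ l * p) := by rw [h4, mul_assoc]
        _ = (x * p) * t ^ l := by rw [← S.comm_t hp, mul_assoc]
        _ = t ^ (k + l) := by rw [h2, ← pow_add]

theorem cancel_left {a b c : M} (ha : a ∈ Pos g) (hb : b ∈ Pos g) (hc : c ∈ Pos g)
    (h : c * a = c * b) : a = b := by
  obtain ⟨p, hp, k, h1, h2⟩ := S.divides hc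
  apply S.cancel (S.t_mem k)
  rw [S.comm_t ha, S.comm_t hb, ← h1, mul_assoc, h, mul_assoc]

theorem i_t (k : ℕ) : t ^ k * i (t ^ k) = 1 := S.unit_pos (S.t_mem k)

/-- after multiplication by a power of `t` everything becomes positive -/
theorem shift (w : M) : ∃ L : ℕ, t ^ L * w ∈ Pos g := by
  have hw : w ∈ Submonoid.closure (Set.range g ∪ Set.range (fun x => i (g x))) := by
    rw [S.gen]; trivial
  induction hw using Submonoid.closure_induction_right with
  | one => exact ⟨0, by simp⟩
  | mul_right w hw y hy ih =>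
    obtain ⟨L, hL⟩ := ih
    rcases hy with ⟨x, rfl⟩ | ⟨x, rfl⟩
    · exact ⟨L, by rw [← mul_assoc]; exact mul_mem hL (Submonoid.subset_closure ⟨x, rfl⟩)⟩
    · obtain ⟨p, hp, k, hk⟩ := S.div x
      refine ⟨k + L, ?_⟩
      have : t ^ (k + L) * (w * i (g x)) = (t ^ L * w) * p := by
        calc t ^ (k + L) * (w * i (g x)) = (t ^ k * (t ^ L * w)) * i (g x) := by
              rw [pow_add]; simp only [mul_assoc]
          _ = (t ^ L * w) * (t ^ k * i (g x)) := by rw [← S.comm_t hL]; simp only [mul_assoc]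
          _ = (t ^ L * w) * (p * (g x * i (g x))) := by rw [← hk]; simp only [mul_assoc]
          _ = (t ^ L * w) * p := by rw [S.run, mul_one]
      rw [this]
      exact mul_mem hL hp

theorem shift_mono {w : M} {L L' : ℕ} (h : t ^ L * w ∈ Pos g) (hL : L ≤ L') : t ^ L' * w ∈ Pos g := by
  obtain ⟨d, rfl⟩ := Nat.exists_eq_add_of_le hL
  rw [add_comm, pow_add, mul_assoc]
  exact mul_mem (S.t_mem d) h

/-- `w t ≤ t w` -/
theorem le_t (w : M) : ∃ e : M, e * e = e ∧ w * t = e * (t * w) := by
  have hw : w ∈ Submonoid.closure (Set.range g ∪ Set.range (fun x => i (g x))) := by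
    rw [S.gen]; trivial
  induction hw using Submonoid.closure_induction_left with
  | one => exact ⟨1, by simp, by simp⟩
  | mul_left y hy w hw ih =>
    obtain ⟨e, he, h⟩ := ih
    have key : ∃ f : M, f * f = f ∧ y * t = f * (t * y) := by
      rcases hy with ⟨x, rfl⟩ | ⟨x, rfl⟩
      · exact ⟨1, by simp, by rw [one_mul]; exact S.cen x⟩
      · refine ⟨i (g x) * g x, S.hi.idem_l _, ?_⟩
        calc i (g x) * t = i (g x) * t * (g x * i (g x)) := by rw [S.run, mul_one]
          _ = i (g x) * (t * g x) * i (g x) := by simp only [mul_assoc]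
          _ = i (g x) * (g x * t) * i (g x) := by rw [S.cen]
          _ = i (g x) * g x * (t * i (g x)) := by simp only [mul_assoc]
    obtain ⟨f, hf, h2⟩ := key
    refine ⟨(y * e * i y) * f, S.hi.idem_mul (S.hi.pass_idem he y) hf, ?_⟩
    calc y * w * t = y * (w * t) := by rw [mul_assoc]
      _ = (y * e) * (t * w) := by rw [h, ← mul_assoc]
      _ = (y * e * i y) * y * (t * w) := by rw [← S.hi.pass he y]
      _ = (y * e * i y) * (y * t) * w := by simp only [mul_assoc]
      _ = (y * e * i y) * f * (t * (y * w)) := by rw [h2]; simp only [mul_assoc]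

theorem le_pow (w : M) (L : ℕ) : ∃ e : M, e * e = e ∧ w * t ^ L = e * (t ^ L * w) := by
  induction L with
  | zero => exact ⟨1, by simp, by simp⟩
  | succ L ih =>
    obtain ⟨e, he, h⟩ := ih
    obtain ⟨f, hf, h2⟩ := S.le_t w
    -- `w t^(L+1) = e t^L w t = e t^L f t w = e (t^L f i(t^L)) t^L t w`
    refine ⟨e * (t ^ L * f * i (t ^ L)), S.hi.idem_mul he (S.hi.pass_idem hf _), ?_⟩
    calc w * t ^ (L + 1) = (w * t ^ L) * t := by rw [pow_succ, mul_assoc]
      _ = e * (t ^ L * (w * t)) := by rw [h]; simp only [mul_assoc]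
      _ = e * ((t ^ L * f) * (t * w)) := by rw [h2]; simp only [mul_assoc]
      _ = e * ((t ^ L * f * i (t ^ L)) * t ^ L * (t * w)) := by rw [← S.hi.pass hf]
      _ = e * (t ^ L * f * i (t ^ L)) * (t ^ (L + 1) * w) := by
          rw [pow_succ]; simp only [mul_assoc]

/-- an element fixing a power of `t` is idempotent -/
theorem idem_of_fix {w : M} {L : ℕ} (h : t ^ L * w = t ^ L) : w * w = w := by
  obtain ⟨e, he, h1⟩ := S.le_pow w L
  have h2 : w = e := by
    calc w = w * t ^ L * i (t ^ L) := by rw [mul_assoc, S.i_t, mul_one]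
      _ = e := by rw [h1, h, mul_assoc, S.i_t, mul_one]
  rw [h2, he]

/-- an idempotent is above some power -/
theorem fix_of_idem {e : M} (he : e * e = e) : ∃ L, ∀ L', L ≤ L' → t ^ L' * e = t ^ L' := by
  obtain ⟨L, hL⟩ := S.shift e
  refine ⟨L, fun L' hLL' => ?_⟩
  have h1 := S.unit_pos (S.shift_mono hL hLL')
  rw [S.hi.im, S.hi.idem he] at h1
  have h2 : t ^ L' * e * i (t ^ L') = 1 := by
    calc t ^ L' * e * i (t ^ L') = t ^ L' * (e * e) * i (t ^ L') := by rw [he]
      _ = t ^ L' * e * (e * i (t ^ L')) := by simp only [mul_assoc]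
      _ = 1 := h1
  rw [S.hi.pass he, h2, one_mul]

/-- `E`-unitarity -/
theorem eunitary {e w : M} (he : e * e = e) (h : e * w = e) : w * w = w := by
  obtain ⟨L, hL⟩ := S.fix_of_idem he
  apply S.idem_of_fix (L := L)
  calc t ^ L * w = t ^ L * e * w := by rw [hL L le_rfl]
    _ = t ^ L := by rw [mul_assoc, h, hL L le_rfl]

/-- the minimum group congruence -/
theorem sig_iff (a b : M) : (∃ e : M, e * e = e ∧ e * a = e * b) ↔ ∃ L : ℕ, t ^ L * a = t ^ L * b := by
  constructor
  · rintro ⟨e, he, h⟩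
    obtain ⟨L, hL⟩ := S.fix_of_idem he
    refine ⟨L, ?_⟩
    rw [← hL L le_rfl, mul_assoc, h, mul_assoc]
  · rintro ⟨L, h⟩
    refine ⟨i (t ^ L) * t ^ L, S.hi.idem_l _, ?_⟩
    rw [mul_assoc, h, mul_assoc]

omit S in
theorem pow_mono {a b : M} {L L' : ℕ} (h : t ^ L * a = t ^ L * b) (hL : L ≤ L') :
    t ^ L' * a = t ^ L' * b := by
  obtain ⟨d, rfl⟩ := Nat.exists_eq_add_of_le hL
  rw [add_comm, pow_add, mul_assoc, h, mul_assoc]

/-- the congruence -/
def con : Con M where
  r a b := ∃ L : ℕ, t ^ L * a = t ^ L * b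
  iseqv := by
    refine ⟨fun a => ⟨0, rfl⟩, fun ⟨L, h⟩ => ⟨L, h.symm⟩, ?_⟩
    rintro a b c ⟨L, h⟩ ⟨L', h'⟩
    exact ⟨max L L', (pow_mono h (le_max_left _ _)).trans (pow_mono h' (le_max_right _ _))⟩
  mul' := by
    rintro a b c d ⟨L, h⟩ ⟨L', h'⟩
    obtain ⟨K, hK⟩ := S.shift b
    refine ⟨L + K + L', ?_⟩
    have h1 : t ^ (L + K + L') * a = t ^ (L + K + L') * b := pow_mono h (by omega)
    have h2 : t ^ (L + K) * b ∈ Pos g := S.shift_mono hK (by omega)
    have e1 : t ^ (L + K + L') = t ^ L' * t ^ (L + K) := by rw [← pow_add, add_comm]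
    calc t ^ (L + K + L') * (a * c) = (t ^ (L + K + L') * a) * c := by rw [mul_assoc]
      _ = (t ^ L' * (t ^ (L + K) * b)) * c := by
          rw [h1, e1, mul_assoc (t ^ L')]
      _ = (t ^ (L + K) * b) * (t ^ L' * c) := by rw [← S.comm_t h2]; simp only [mul_assoc]
      _ = (t ^ (L + K) * b) * (t ^ L' * d) := by rw [h']
      _ = (t ^ L' * (t ^ (L + K) * b)) * d := by rw [← S.comm_t h2]; simp only [mul_assoc]
      _ = t ^ (L + K + L') * (b * d) := by
          rw [e1]; simp only [mul_assoc]

theorem con_iff (a b : M) : S.con a b ↔ ∃ L : ℕ, t ^ L * a = t ^ L * b := Iff.rfl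

/-- `a⁻¹ a` is congruent to one -/
theorem con_i_mul {a : M} (ha : a ∈ Pos g) : S.con (i a * a) 1 := by
  obtain ⟨p, hp, k, h1, h2⟩ := S.divides ha
  refine ⟨k, ?_⟩
  rw [mul_one, ← h1]
  calc p * a * (i a * a) = p * (a * i a * a) := by simp only [mul_assoc]
    _ = p * a := by rw [S.hi.reg]

theorem pos_inj {a b : M} (ha : a ∈ Pos g) (hb : b ∈ Pos g) (h : S.con a b) : a = b := by
  obtain ⟨L, h⟩ := h
  exact S.cancel_left ha hb (S.t_mem L) h

/-- right reversibility -/
theorem reversible {a b : M} (ha : a ∈ Pos g) (hb : b ∈ Pos g) :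
    ∃ c ∈ Pos g, ∃ d ∈ Pos g, a * c = b * d := by
  obtain ⟨p, hp, k, _, h2⟩ := S.divides ha
  obtain ⟨q, hq, l, _, h4⟩ := S.divides hb
  refine ⟨p * t ^ l, mul_mem hp (S.t_mem l), q * t ^ k, mul_mem hq (S.t_mem k), ?_⟩
  rw [← mul_assoc, h2, ← mul_assoc, h4, ← pow_add, ← pow_add, add_comm]

end Shift

end Pool.Agent.Q97.FF
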