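import Pool.Agent.Q97.FF.Grp

set_option autoImplicit false

/-!
# The concrete presentation
-/

namespace Pool.Agent.Q97.FF.Conc

open Pool.Agent.Q97.FF

section
variable {m k : ℕ} (r : Fin k → List (Fin m × Bool))

/-- letters: `none` is the central letter; `some (inl (0,i,s))`, `some (inl (1,i,s))` are the
letters `a`, `b`, `some (inl (2,i,s))` the diagonal letters, `some (inr (j,s))` the relators. -/
abbrev L (m k : ℕ) : Type := Option ((Fin 3 × Fin m × Bool) ⊕ (Fin k × Bool))

abbrev lt : L m k := none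
abbrev la (i : Fin m) (s : Bool) : L m k := some (Sum.inl (0, i, s))
abbrev lb (i : Fin m) (s : Bool) : L m k := some (Sum.inl (1, i, s))
abbrev ld (i : Fin m) (s : Bool) : L m k := some (Sum.inl (2, i, s))
abbrev lc (j : Fin k) (s : Bool) : L m k := some (Sum.inr (j, s))

/-- the group -/
abbrev G0 (m : ℕ) : Type := FreeGroup (Fin m) × FreeGroup (Fin m) × FreeGroup (Fin 1)

/-- the words of a letter -/
def w1 : L m k → List (Fin m × Bool)
  | none => []
  | some (Sum.inl (0, i, s)) => [(i, s)]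
  | some (Sum.inl (1, _, _)) => []
  | some (Sum.inl (2, i, s)) => [(i, s)]
  | some (Sum.inr (j, s)) => if s then r j else FreeGroup.invRev (r j)

def w2 : L m k → List (Fin m × Bool)
  | none => []
  | some (Sum.inl (0, _, _)) => []
  | some (Sum.inl (1, i, s)) => [(i, s)]
  | some (Sum.inl (2, i, s)) => [(i, s)]
  | some (Sum.inr _) => []

def w3 : L m k → List (Fin 1 × Bool)
  | none => [(0, true)]
  | some (Sum.inl (0, _, _)) => [(0, true)]
  | some (Sum.inl (1, _, _)) => [(0, true)]
  | some (Sum.inl (2, _, _)) => []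
  | some (Sum.inr _) => []

/-- the value of a letter -/
def pi (x : L m k) : G0 m := (FreeGroup.mk (w1 r x), FreeGroup.mk (w2 x), FreeGroup.mk (w3 x))

theorem pi_t : pi r lt = (1, 1, FreeGroup.of 0) := rfl
theorem pi_a (i : Fin m) (s : Bool) : pi r (la i s) = (FreeGroup.mk [(i, s)], 1, FreeGroup.of 0) := rfl
theorem pi_b (i : Fin m) (s : Bool) : pi r (lb i s) = (1, FreeGroup.mk [(i, s)], FreeGroup.of 0) := rfl
theorem pi_d (i : Fin m) (s : Bool) :
    pi r (ld i s) = (FreeGroup.mk [(i, s)], FreeGroup.mk [(i, s)], 1) := rfl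
theorem pi_c1 (j : Fin k) : pi r (lc j true) = (FreeGroup.mk (r j), 1, 1) := rfl
theorem pi_c0 (j : Fin k) : pi r (lc j false) = ((FreeGroup.mk (r j))⁻¹, 1, 1) := by
  rw [FreeGroup.inv_mk]; rfl

/-- the relations -/
def IsRel (p : List (L m k) × List (L m k)) : Prop :=
  (∃ x, p = ([x, lt], [lt, x])) ∨
  (∃ i s, p = ([la i s, la i (!s)], [lt, lt])) ∨
  (∃ i s, p = ([lb i s, lb i (!s)], [lt, lt])) ∨
  (∃ i s, p = ([ld i s, ld i (!s)], [])) ∨
  (∃ j s, p = ([lc j s, lc j (!s)], [])) ∨
  (∃ i s i' s', p = ([la i s, lb i' s'], [lb i' s', la i s])) ∨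
  (∃ i s, p = ([lt, lt, ld i s], [la i s, lb i s])) ∨
  (∃ j, p = (List.replicate (r j).length lt ++ [lc j true], (r j).map fun q => la q.1 q.2))

theorem finite_rel : {p | IsRel r p}.Finite := by
  have h1 := Set.finite_range (fun x : L m k => (([x, lt], [lt, x]) : List (L m k) × List (L m k)))
  have h2 := Set.finite_range (fun x : Fin m × Bool =>
    (([la x.1 x.2, la x.1 (!x.2)], [lt, lt]) : List (L m k) × List (L m k)))
  have h3 := Set.finite_range (fun x : Fin m × Bool =>
    (([lb x.1 x.2, lb x.1 (!x.2)], [lt, lt]) : List (L m k) × List (L m k)))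
  have h4 := Set.finite_range (fun x : Fin m × Bool =>
    (([ld x.1 x.2, ld x.1 (!x.2)], []) : List (L m k) × List (L m k)))
  have h5 := Set.finite_range (fun x : Fin k × Bool =>
    (([lc x.1 x.2, lc x.1 (!x.2)], []) : List (L m k) × List (L m k)))
  have h6 := Set.finite_range (fun x : (Fin m × Bool) × (Fin m × Bool) =>
    (([la x.1.1 x.1.2, lb x.2.1 x.2.2], [lb x.2.1 x.2.2, la x.1.1 x.1.2]) :
      List (L m k) × List (L m k)))
  have h7 := Set.finite_range (fun x : Fin m × Bool =>
    (([lt, lt, ld x.1 x.2], [la x.1 x.2, lb x.1 x.2]) : List (L m k) × List (L m k)))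
  have h8 := Set.finite_range (fun j : Fin k =>
    ((List.replicate (r j).length lt ++ [lc j true], (r j).map fun q => la q.1 q.2) :
      List (L m k) × List (L m k)))
  refine (((((((h1.union h2).union h3).union h4).union h5).union h6).union h7).union h8).subset ?_
  rintro p (⟨x, rfl⟩ | ⟨i, s, rfl⟩ | ⟨i, s, rfl⟩ | ⟨i, s, rfl⟩ | ⟨i, s, rfl⟩ | ⟨i, s, i', s', rfl⟩ |
    ⟨i, s, rfl⟩ | ⟨j, rfl⟩)
  · exact Or.inl (Or.inl (Or.inl (Or.inl (Or.inl (Or.inl (Or.inl ⟨x, rfl⟩))))))
  · exact Or.inl (Or.inl (Or.inl (Or.inl (Or.inl (Or.inl (Or.inr ⟨(i, s), rfl⟩))))))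
  · exact Or.inl (Or.inl (Or.inl (Or.inl (Or.inl (Or.inr ⟨(i, s), rfl⟩)))))
  · exact Or.inl (Or.inl (Or.inl (Or.inl (Or.inr ⟨(i, s), rfl⟩))))
  · exact Or.inl (Or.inl (Or.inl (Or.inr ⟨(i, s), rfl⟩)))
  · exact Or.inl (Or.inl (Or.inr ⟨((i, s), (i', s')), rfl⟩))
  · exact Or.inl (Or.inr ⟨(i, s), rfl⟩)
  · exact Or.inr ⟨j, rfl⟩

/-- the list of relations -/
noncomputable def RL : List (List (L m k) × List (L m k)) := (finite_rel r).toFinset.toList

theorem mem_RL (p : List (L m k) × List (L m k)) : p ∈ RL r ↔ IsRel r p := by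
  unfold RL
  rw [Finset.mem_toList, Set.Finite.mem_toFinset]
  rfl

theorem mk_pair (i : Fin m) (s : Bool) :
    (FreeGroup.mk [(i, s)] : FreeGroup (Fin m)) * FreeGroup.mk [(i, !s)] = 1 := by
  have : FreeGroup.mk [(i, !s)] = (FreeGroup.mk [(i, s)] : FreeGroup (Fin m))⁻¹ := by
    rw [FreeGroup.inv_mk]; rfl
  rw [this, mul_inv_cancel]

theorem comm1 (x y : FreeGroup (Fin 1)) : x * y = y * x := by
  have h : ∀ z : FreeGroup (Fin 1), FreeGroup.of 0 * z = z * FreeGroup.of 0 := by
    intro z
    induction z using FreeGroup.induction_on with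
    | C1 => simp
    | of i => rw [Subsingleton.elim i 0]
    | inv_of i _ => rw [Subsingleton.elim i 0]; group
    | mul a b ha hb => rw [← mul_assoc, ha, mul_assoc, hb, mul_assoc]
  induction x using FreeGroup.induction_on with
  | C1 => simp
  | of i => rw [Subsingleton.elim i 0, h]
  | inv_of i _ =>
    rw [Subsingleton.elim i 0]
    have := h y
    rw [inv_mul_eq_iff_eq_mul, ← mul_assoc, this, mul_assoc, mul_inv_cancel, mul_one]
  | mul a b ha hb => rw [mul_assoc, hb, ← mul_assoc, ha, mul_assoc]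

theorem prod_map_a (l : List (Fin m × Bool)) :
    ((l.map fun q => pi r (la q.1 q.2)).prod : G0 m) =
      (FreeGroup.mk l, 1, FreeGroup.of 0 ^ l.length) := by
  induction l with
  | nil => rfl
  | cons q l ih =>
    rw [List.map_cons, List.prod_cons, ih, pi_a, Prod.mk_mul_mk, Prod.mk_mul_mk, FreeGroup.mul_mk,
      List.length_cons, pow_succ', one_mul]
    rfl

theorem rel_holds (p : List (L m k) × List (L m k)) (hp : IsRel r p) :
    (p.1.map (pi r)).prod = (p.2.map (pi r)).prod := by
  rcases hp with ⟨x, rfl⟩ | ⟨i, s, rfl⟩ | ⟨i, s, rfl⟩ | ⟨i, s, rfl⟩ | ⟨i, s, rfl⟩ | ⟨i, s, i', s', rfl⟩ |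
    ⟨i, s, rfl⟩ | ⟨j, rfl⟩
  · simp only [List.map_cons, List.map_nil, List.prod_cons, List.prod_nil, mul_one, pi_t]
    unfold pi
    simp only [Prod.mk_mul_mk, mul_one, one_mul]
    rw [comm1 (FreeGroup.of 0)]
  · simp only [List.map_cons, List.map_nil, List.prod_cons, List.prod_nil, mul_one, pi_t, pi_a,
      Prod.mk_mul_mk, mk_pair]
  · simp only [List.map_cons, List.map_nil, List.prod_cons, List.prod_nil, mul_one, pi_t, pi_b,
      Prod.mk_mul_mk, mk_pair]
  · simp only [List.map_cons, List.map_nil, List.prod_cons, List.prod_nil, mul_one, pi_d,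
      Prod.mk_mul_mk, mk_pair]
    rfl
  · cases s
    · simp only [Bool.not_false, List.map_cons, List.map_nil, List.prod_cons, List.prod_nil,
        mul_one, pi_c0, pi_c1, Prod.mk_mul_mk, inv_mul_cancel]
      rfl
    · simp only [Bool.not_true, List.map_cons, List.map_nil, List.prod_cons, List.prod_nil,
        mul_one, pi_c0, pi_c1, Prod.mk_mul_mk, mul_inv_cancel]
      rfl
  · simp only [List.map_cons, List.map_nil, List.prod_cons, List.prod_nil, mul_one, pi_a, pi_b,
      Prod.mk_mul_mk, one_mul]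
  · simp only [List.map_cons, List.map_nil, List.prod_cons, List.prod_nil, mul_one, pi_a, pi_b,
      pi_t, pi_d, Prod.mk_mul_mk, one_mul]
  · simp only [List.map_append, List.map_replicate, List.prod_append, List.prod_replicate,
      List.map_cons, List.map_nil, List.prod_cons, List.prod_nil, mul_one, List.map_map]
    have h1 := prod_map_a (k := k) r (r j)
    have h2 : ((r j).map (pi r ∘ fun q => la q.1 q.2)) = (r j).map fun q => pi r (la q.1 q.2) := rfl
    rw [h2, h1, pi_t, pi_c1]
    simp only [Prod.pow_mk, one_pow, Prod.mk_mul_mk, one_mul, mul_one]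

section univ
variable {K : Type} [Group K] (ρ : L m k → K)
  (hρ : ∀ p : List (L m k) × List (L m k), IsRel r p → (p.1.map ρ).prod = (p.2.map ρ).prod)

theorem commute_lift {α : Type} {f : α → K} {y : K} (h : ∀ a, Commute (f a) y)
    (g : FreeGroup α) : Commute (FreeGroup.lift f g) y := by
  induction g using FreeGroup.induction_on with
  | C1 => rw [map_one]; exact Commute.one_left y
  | of i => rw [FreeGroup.lift_apply_of]; exact h i
  | inv_of i hi => rw [map_inv]; exact hi.inv_left
  | mul a b ha hb => rw [map_mul]; exact ha.mul_left hb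

include hρ in
theorem univ_exists : ∃ θ : G0 m →* K, ∀ x, θ (pi r x) = ρ x := by
  -- the relations
  set T := ρ lt with hT
  have hc : ∀ x, ρ x * T = T * ρ x := by
    intro x
    have := hρ ([x, lt], [lt, x]) (Or.inl ⟨x, rfl⟩)
    simpa using this
  have ha : ∀ i s, ρ (la i s) * ρ (la i (!s)) = T * T := by
    intro i s
    have := hρ ([la i s, la i (!s)], [lt, lt]) (Or.inr (Or.inl ⟨i, s, rfl⟩))
    simpa using this
  have hb : ∀ i s, ρ (lb i s) * ρ (lb i (!s)) = T * T := by
    intro i s
    have := hρ ([lb i s, lb i (!s)], [lt, lt]) (Or.inr (Or.inr (Or.inl ⟨i, s, rfl⟩)))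
    simpa using this
  have hcc : ∀ j, ρ (lc j true) * ρ (lc j false) = 1 := by
    intro j
    have := hρ ([lc j true, lc j (!true)], []) (Or.inr (Or.inr (Or.inr (Or.inr
      (Or.inl ⟨j, true, rfl⟩)))))
    simpa using this
  have hab : ∀ i s i' s', ρ (la i s) * ρ (lb i' s') = ρ (lb i' s') * ρ (la i s) := by
    intro i s i' s'
    have := hρ ([la i s, lb i' s'], [lb i' s', la i s]) (Or.inr (Or.inr (Or.inr (Or.inr
      (Or.inr (Or.inl ⟨i, s, i', s', rfl⟩))))))
    simpa using this
  have hd : ∀ i s, T * (T * ρ (ld i s)) = ρ (la i s) * ρ (lb i s) := by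
    intro i s
    have := hρ ([lt, lt, ld i s], [la i s, lb i s]) (Or.inr (Or.inr (Or.inr (Or.inr
      (Or.inr (Or.inr (Or.inl ⟨i, s, rfl⟩)))))))
    simpa using this
  have hrc : ∀ j, T ^ (r j).length * ρ (lc j true) =
      ((r j).map fun q => ρ (la q.1 q.2)).prod := by
    intro j
    have := hρ (List.replicate (r j).length lt ++ [lc j true], (r j).map fun q => la q.1 q.2)
      (Or.inr (Or.inr (Or.inr (Or.inr (Or.inr (Or.inr (Or.inr ⟨j, rfl⟩)))))))
    simpa [List.map_map, Function.comp_def] using this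
  have cT : ∀ x, Commute (ρ x) T := fun x => hc x
  let A : Fin m → K := fun i => ρ (la i true) * T⁻¹
  let B : Fin m → K := fun i => ρ (lb i true) * T⁻¹
  have cAT : ∀ i, Commute (A i) T := fun i => (cT _).mul_left ((Commute.refl T).inv_left)
  have cBT : ∀ i, Commute (B i) T := fun i => (cT _).mul_left ((Commute.refl T).inv_left)
  have cAB : ∀ i j, Commute (A i) (B j) := by
    intro i j
    have h1 : Commute (ρ (la i true)) (ρ (lb j true)) := hab i true j true
    exact (h1.mul_right (cT _).inv_right).mul_left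
      (((cT _).inv_right.symm).mul_right ((Commute.refl T).inv_inv))
  let θ2 : FreeGroup (Fin m) × FreeGroup (Fin 1) →* K :=
    (FreeGroup.lift B).noncommCoprod (FreeGroup.lift (fun _ => T)) (by
      intro x y
      refine (commute_lift (fun _ => ?_) y).symm
      exact (commute_lift (fun i => cBT i) x).symm)
  have hθ2 : ∀ y z, θ2 (y, z) = FreeGroup.lift B y * FreeGroup.lift (fun _ => T) z :=
    fun y z => rfl
  let θ : G0 m →* K := (FreeGroup.lift A).noncommCoprod θ2 (by
      rintro x ⟨y, z⟩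
      rw [hθ2]
      refine Commute.mul_right ?_ ?_
      · exact commute_lift (fun i => (commute_lift (fun j => (cAB i j).symm) y).symm) x
      · exact commute_lift (fun i => (commute_lift (fun _ => (cAT i).symm) z).symm) x)
  have hθ : ∀ x y z, θ (x, y, z) = FreeGroup.lift A x * (FreeGroup.lift B y *
    FreeGroup.lift (fun _ => T) z) := fun x y z => rfl
  have hT0 : FreeGroup.lift (fun _ : Fin 1 => T) (FreeGroup.of 0) = T := FreeGroup.lift_apply_of
  have hA : ∀ i s, FreeGroup.lift A (FreeGroup.mk [(i, s)]) = ρ (la i s) * T⁻¹ := by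
    intro i s
    cases s
    · have h1 : (FreeGroup.mk [(i, false)] : FreeGroup (Fin m)) = (FreeGroup.of i)⁻¹ := rfl
      rw [h1, map_inv, FreeGroup.lift_apply_of]
      show (ρ (la i true) * T⁻¹)⁻¹ = _
      have h2 := ha i true
      simp only [Bool.not_true] at h2
      have h3 : ρ (la i false) = (ρ (la i true))⁻¹ * (T * T) := by rw [← h2, inv_mul_cancel_left]
      rw [h3]
      have h4 : (ρ (la i true))⁻¹ * T = T * (ρ (la i true))⁻¹ := ((cT _).inv_left).eq
      rw [mul_inv_rev, inv_inv, ← h4]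
      group
    · have h1 : (FreeGroup.mk [(i, true)] : FreeGroup (Fin m)) = FreeGroup.of i := rfl
      rw [h1, FreeGroup.lift_apply_of]
  have hB : ∀ i s, FreeGroup.lift B (FreeGroup.mk [(i, s)]) = ρ (lb i s) * T⁻¹ := by
    intro i s
    cases s
    · have h1 : (FreeGroup.mk [(i, false)] : FreeGroup (Fin m)) = (FreeGroup.of i)⁻¹ := rfl
      rw [h1, map_inv, FreeGroup.lift_apply_of]
      show (ρ (lb i true) * T⁻¹)⁻¹ = _
      have h2 := hb i true
      simp only [Bool.not_true] at h2
      have h3 : ρ (lb i false) = (ρ (lb i true))⁻¹ * (T * T) := by rw [← h2, inv_mul_cancel_left]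
      rw [h3]
      have h4 : (ρ (lb i true))⁻¹ * T = T * (ρ (lb i true))⁻¹ := ((cT _).inv_left).eq
      rw [mul_inv_rev, inv_inv, ← h4]
      group
    · have h1 : (FreeGroup.mk [(i, true)] : FreeGroup (Fin m)) = FreeGroup.of i := rfl
      rw [h1, FreeGroup.lift_apply_of]
  have hAl : ∀ l : List (Fin m × Bool), FreeGroup.lift A (FreeGroup.mk l) * T ^ l.length =
      (l.map fun q => ρ (la q.1 q.2)).prod := by
    intro l
    induction l with
    | nil => simp [FreeGroup.one_eq_mk.symm]
    | cons q l ih =>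
      have h1 : (FreeGroup.mk (q :: l) : FreeGroup (Fin m)) = FreeGroup.mk [q] * FreeGroup.mk l := by
        rw [FreeGroup.mul_mk]; rfl
      have h2 : FreeGroup.lift A (FreeGroup.mk [q]) = ρ (la q.1 q.2) * T⁻¹ := hA q.1 q.2
      rw [h1, map_mul, h2, List.map_cons, List.prod_cons, ← ih, List.length_cons, pow_succ']
      have h3 : Commute (FreeGroup.lift A (FreeGroup.mk l)) T := commute_lift cAT _
      calc ρ (la q.1 q.2) * T⁻¹ * FreeGroup.lift A (FreeGroup.mk l) * (T * T ^ l.length)
          = ρ (la q.1 q.2) * T⁻¹ * (FreeGroup.lift A (FreeGroup.mk l) * T) * T ^ l.length := by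
            simp only [mul_assoc]
        _ = ρ (la q.1 q.2) * (FreeGroup.lift A (FreeGroup.mk l) * T ^ l.length) := by
            rw [h3.eq]; group
  have hc1 : ∀ j, FreeGroup.lift A (FreeGroup.mk (r j)) = ρ (lc j true) := by
    intro j
    have h1 := hAl (r j)
    rw [← hrc j] at h1
    have h2 : T ^ (r j).length * ρ (lc j true) = ρ (lc j true) * T ^ (r j).length :=
      ((cT _).pow_right _).eq.symm
    rw [h2] at h1
    exact mul_right_cancel h1
  refine ⟨θ, ?_⟩
  rintro (- | (⟨q, i, s⟩ | ⟨j, s⟩))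
  · show θ (1, 1, FreeGroup.of 0) = _
    rw [hθ, map_one, map_one, hT0, one_mul, one_mul]
  · fin_cases q
    · show θ (FreeGroup.mk [(i, s)], 1, FreeGroup.of 0) = ρ (la i s)
      rw [hθ, map_one, hT0, hA, one_mul, inv_mul_cancel_right]
    · show θ (1, FreeGroup.mk [(i, s)], FreeGroup.of 0) = ρ (lb i s)
      rw [hθ, map_one, hT0, hB, one_mul, inv_mul_cancel_right]
    · show θ (FreeGroup.mk [(i, s)], FreeGroup.mk [(i, s)], 1) = ρ (ld i s)
      rw [hθ, map_one, hA, hB, mul_one]
      have h1 := hd i s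
      have h2 : ρ (lb i s) * T = T * ρ (lb i s) := hc _
      have h3 : T⁻¹ * (ρ (lb i s) * T⁻¹) = ρ (lb i s) * T⁻¹ * T⁻¹ := by
        have h4 : T⁻¹ * ρ (lb i s) = ρ (lb i s) * T⁻¹ := ((cT (lb i s)).inv_right).eq.symm
        rw [← mul_assoc, h4]
      calc ρ (la i s) * T⁻¹ * (ρ (lb i s) * T⁻¹) = ρ (la i s) * ρ (lb i s) * T⁻¹ * T⁻¹ := by
            rw [mul_assoc, h3]; simp only [mul_assoc]
        _ = T * (T * ρ (ld i s)) * T⁻¹ * T⁻¹ := by rw [h1]
        _ = ρ (ld i s) := by rw [← hc (ld i s), ← mul_assoc T, ← hc (ld i s)]; group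
  · cases s
    · rw [show (some (Sum.inr (j, false)) : L m k) = lc j false from rfl, pi_c0, hθ, map_inv,
        map_one, map_one, hc1, mul_one, mul_one]
      exact inv_eq_of_mul_eq_one_right (hcc j)
    · rw [show (some (Sum.inr (j, true)) : L m k) = lc j true from rfl, pi_c1, hθ,
        map_one, map_one, hc1, mul_one, mul_one]

end univ

/-- the numbering of the letters -/
noncomputable def en (m k : ℕ) : L m k ≃ Fin (Fintype.card (L m k)) := Fintype.equivFin _

/-- the final list of relations -/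
noncomputable def Lam : List (List (Fin (Fintype.card (L m k))) × List (Fin (Fintype.card (L m k)))) :=
  (RL r).map fun p => (p.1.map (en m k), p.2.map (en m k))

theorem mem_Lam {p : List (L m k) × List (L m k)} (hp : IsRel r p) :
    (p.1.map (en m k), p.2.map (en m k)) ∈ Lam r :=
  List.mem_map.2 ⟨p, (mem_RL r p).2 hp, rfl⟩

theorem good : Good (Lam r) (en m k lt) where
  cen x := by
    obtain ⟨y, rfl⟩ := (en m k).surjective x
    exact mem_Lam r (p := ([y, lt], [lt, y])) (Or.inl ⟨y, rfl⟩)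
  div x := by
    obtain ⟨y, rfl⟩ := (en m k).surjective x
    rcases y with - | (⟨q, i, s⟩ | ⟨j, s⟩)
    · exact Or.inl rfl
    · right
      fin_cases q
      · refine ⟨[en m k (la i (!s))], 2, ?_⟩
        have := mem_Lam r (p := ([la i (!s), la i (!(!s))], [lt, lt]))
          (Or.inr (Or.inl ⟨i, !s, rfl⟩))
        rw [Bool.not_not] at this
        exact this
      · refine ⟨[en m k (lb i (!s))], 2, ?_⟩
        have := mem_Lam r (p := ([lb i (!s), lb i (!(!s))], [lt, lt]))
          (Or.inr (Or.inr (Or.inl ⟨i, !s, rfl⟩)))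
        rw [Bool.not_not] at this
        exact this
      · refine ⟨[en m k (ld i (!s))], 0, ?_⟩
        have := mem_Lam r (p := ([ld i (!s), ld i (!(!s))], []))
          (Or.inr (Or.inr (Or.inr (Or.inl ⟨i, !s, rfl⟩))))
        rw [Bool.not_not] at this
        exact this
    · right
      refine ⟨[en m k (lc j (!s))], 0, ?_⟩
      have := mem_Lam r (p := ([lc j (!s), lc j (!(!s))], []))
        (Or.inr (Or.inr (Or.inr (Or.inr (Or.inl ⟨j, !s, rfl⟩)))))
      rw [Bool.not_not] at this
      exact this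

/-- the values of the letters -/
noncomputable def ga (x : Fin (Fintype.card (L m k))) : G0 m := pi r ((en m k).symm x)

theorem map_ga (u : List (L m k)) : (u.map (en m k)).map (ga r) = u.map (pi r) := by
  rw [List.map_map]
  congr 1
  funext x
  simp [ga]

theorem pr : Pr (Lam r) (ga r) where
  rel p hp := by
    obtain ⟨q, hq, rfl⟩ := List.mem_map.1 hp
    rw [mem_RL] at hq
    simp only [map_ga]
    exact rel_holds r q hq
  univ K _ ρ hρ := by
    obtain ⟨θ, hθ⟩ := univ_exists r (fun x => ρ (en m k x)) (by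
      intro p hp
      have := hρ _ (mem_Lam r hp)
      simpa [List.map_map, Function.comp_def] using this)
    refine ⟨θ, fun x => ?_⟩
    rw [ga, hθ, Equiv.apply_symm_apply]

end

end Pool.Agent.Q97.FF.Conc
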