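import Mathlib

set_option autoImplicit false

/-!
# Finitely presented special inverse monoids

Words over the alphabet `A` and its formal inverses are lists over `A ⊕ A` (`inl a` is the letter
`a`, `inr a` its formal inverse).
-/

namespace Pool.Agent.Q97.FF

/-- The relations defining `Inv⟨A ∣ w = 1 (w ∈ R)⟩`: the Wagner relations `u u⁻¹ u = u` and
`u u⁻¹ v v⁻¹ = v v⁻¹ u u⁻¹` for all words `u`, `v`, and `w = 1` for `w` in the list `R`. -/
def InvRel {A : Type} (R : List (List (A ⊕ A))) (a b : FreeMonoid (A ⊕ A)) : Prop :=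
  (∃ u : FreeMonoid (A ⊕ A),
    a = u * FreeMonoid.ofList ((FreeMonoid.toList u).reverse.map Sum.swap) * u ∧ b = u) ∨
  (∃ u v : FreeMonoid (A ⊕ A),
    a = u * FreeMonoid.ofList ((FreeMonoid.toList u).reverse.map Sum.swap) *
        (v * FreeMonoid.ofList ((FreeMonoid.toList v).reverse.map Sum.swap)) ∧
    b = v * FreeMonoid.ofList ((FreeMonoid.toList v).reverse.map Sum.swap) *
        (u * FreeMonoid.ofList ((FreeMonoid.toList u).reverse.map Sum.swap))) ∨
  (∃ w ∈ R, a = FreeMonoid.ofList w ∧ b = 1)

/-- The congruence on the free monoid. -/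
def InvCon {A : Type} (R : List (List (A ⊕ A))) : Con (FreeMonoid (A ⊕ A)) := conGen (InvRel R)

/-- The special inverse monoid `Inv⟨A ∣ w = 1 (w ∈ R)⟩`. -/
abbrev SInv {A : Type} (R : List (List (A ⊕ A))) : Type := (InvCon R).Quotient

/-- The element of the monoid represented by a word. -/
def val {A : Type} (R : List (List (A ⊕ A))) (w : List (A ⊕ A)) : SInv R :=
  ((FreeMonoid.ofList w : FreeMonoid (A ⊕ A)) : (InvCon R).Quotient)

/-- The minimum group congruence `σ`. -/
def Sigma {S : Type} [Monoid S] (s t : S) : Prop := ∃ e : S, e * e = e ∧ e * s = e * t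

/-- `E`-unitary: an element above an idempotent in the natural partial order is idempotent. -/
def EUnitary (S : Type) [Monoid S] : Prop :=
  ∀ e s f : S, e * e = e → f * f = f → e = f * s → s * s = s

/-- right units: the `R`-class of `1` -/
def IsRightUnit {S : Type} [Monoid S] (s : S) : Prop := ∃ s' : S, s * s' = 1

/-- The prefix monoid, i.e. the image of the right units in `S/σ`, is right reversible. -/
def PrefixRightReversible (S : Type) [Monoid S] : Prop :=
  ∀ a b : S, IsRightUnit a → IsRightUnit b →
    ∃ c d : S, IsRightUnit c ∧ IsRightUnit d ∧ Sigma (a * c) (b * d)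

end Pool.Agent.Q97.FF
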