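import Pool.Agent.Q97.FF.Mem

set_option autoImplicit false

/-!
# The final statements
-/

namespace Pool.Agent.Q97.FF.Conc

open Pool.Agent.Q97.FF Pool.Agent.Helper707.IAlg

/-- Novikov-Boone with indexed relators -/
theorem source : ∃ (m k : ℕ) (r : Fin k → List (Fin m × Bool)) (W : ℕ → List (Fin m × Bool)),
    Computable W ∧ ¬ ComputablePred (fun n => FreeGroup.mk (W n) ∈ NN r) := by
  obtain ⟨m, R, W, hW, hu⟩ := Pool.Agent.Helper446.LS.WP.word_problem
  refine ⟨m, R.toList.length, fun j => (R.toList.get j).toWord, W, hW, fun hc => hu ?_⟩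
  refine hc.of_eq fun n => ?_
  have h : Set.range (fun j : Fin R.toList.length => FreeGroup.mk (R.toList.get j).toWord) =
      (R : Set (FreeGroup (Fin m))) := by
    ext x
    simp only [Set.mem_range, FreeGroup.mk_toWord, Finset.mem_coe]
    constructor
    · rintro ⟨j, rfl⟩
      exact Finset.mem_toList.1 (List.get_mem _ _)
    · intro hx
      obtain ⟨j, hj⟩ := List.get_of_mem (Finset.mem_toList.2 hx)
      exact ⟨j, hj⟩
  unfold NN
  rw [h]

section
variable {m k : ℕ} (r : Fin k → List (Fin m × Bool))

/-- positive test word -/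
noncomputable def uw (l : List (Fin m × Bool)) : List (Fin (Fintype.card (L m k))) :=
  l.map fun q => en m k (la q.1 q.2)

theorem uw_val (l : List (Fin m × Bool)) :
    ((uw (k := k) l).map (ga r)).prod * (ga r (en m k lt) ^ l.length)⁻¹ = (FreeGroup.mk l, 1, 1) := by
  have h1 : (uw (k := k) l).map (ga r) = l.map fun q => pi r (la q.1 q.2) := by
    unfold uw
    rw [List.map_map]
    congr 1
    funext q
    simp [ga]
  have h2 : ga r (en m k lt) = (1, 1, FreeGroup.of 0) := by
    simp only [ga, Equiv.symm_apply_apply]
    rfl
  rw [h1, prod_map_a, h2]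
  simp only [Prod.pow_mk, one_pow, Prod.inv_mk, Prod.mk_mul_mk, inv_one, mul_one, mul_inv_cancel]

theorem uw_prim : Primrec (uw (m := m) (k := k)) :=
  Primrec.list_map Primrec.id ((Primrec.dom_finite
    (fun q : Fin m × Bool => en m k (la q.1 q.2))).comp Primrec.snd).to₂

theorem rep_prim {α β : Type} [Primcodable α] [Primcodable β] {f : α → ℕ} (hf : Primrec f) (x : β) :
    Primrec fun a => List.replicate (f a) x := by
  have h : ∀ n, List.replicate n x = (List.range n).map fun _ => x := by
    intro n
    rw [List.map_const', List.length_range]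
  exact (Primrec.list_map (Primrec.list_range.comp hf) (Primrec.const x).to₂).of_eq
    fun a => (h (f a)).symm

end

/-- The special inverse monoid. -/
theorem inverse_monoid : ∃ (n : ℕ) (R : List (List (Fin n ⊕ Fin n))),
    (∀ x : SInv R, ∃! y : SInv R, x * y * x = x ∧ y * x * y = y) ∧
    EUnitary (SInv R) ∧ PrefixRightReversible (SInv R) ∧
    ComputablePred (fun p : List (Fin n ⊕ Fin n) × List (Fin n ⊕ Fin n) =>
      Sigma (val R p.1) (val R p.2)) ∧
    ¬ ComputablePred (fun p : List (Fin n ⊕ Fin n) × List (Fin n ⊕ Fin n) =>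
      val R p.1 = val R p.2) := by
  obtain ⟨m, k, r, W, hW, hu⟩ := source
  have H := good (m := m) r
  have P := pr (m := m) r
  refine ⟨Fintype.card (L m k), rels (Lam r), ?_, eUnitary H, rightReversible H, ?_, ?_⟩
  · exact Pool.H679R3.OR.Inv.existsUnique_inv (isInvGen _) (surj _)
  · obtain ⟨φ, hφ⟩ := exists_phi P
    refine (wp_computable r).of_eq fun p => ?_
    rw [sigma_iff_phi H P hφ, hφ, hφ]
  · intro hc
    apply hu
    obtain ⟨d, hd, hdp⟩ := ComputablePred.computable_iff.1 hc
    rw [ComputablePred.computable_iff]
    have hcw : Computable fun n => tw (en m k lt) (uw (W n)) (W n).length := by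
      have h1 : Primrec fun l : List (Fin m × Bool) => tw (en m k lt) (uw l) l.length := by
        unfold tw
        exact Primrec.list_append.comp
          (Primrec.list_map uw_prim (Primrec.sumInl.comp Primrec.snd).to₂)
          (rep_prim Primrec.list_length _)
      exact h1.to_comp.comp hW
    have hnu : Primrec fun l : List (Fin (Fintype.card (L m k)) ⊕ Fin (Fintype.card (L m k))) =>
        l ++ l.reverse.map Sum.swap :=
      Primrec.list_append.comp Primrec.id
        (Primrec.list_map Primrec.list_reverse ((Primrec.dom_finite Sum.swap).comp Primrec.snd).to₂)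
    refine ⟨fun n => d (tw (en m k lt) (uw (W n)) (W n).length ++
      (tw (en m k lt) (uw (W n)) (W n).length).reverse.map Sum.swap, []),
      hd.comp ((hnu.to_comp.comp hcw).pair (Computable.const [])), ?_⟩
    funext n
    have h3 := congrFun hdp (tw (en m k lt) (uw (W n)) (W n).length ++
      (tw (en m k lt) (uw (W n)) (W n).length).reverse.map Sum.swap, [])
    rw [← h3]
    simp only
    rw [word_iff H P, uw_val, mem_iff]

/-- signed letters as pairs -/
def cv {n : ℕ} (x : Fin n × Bool) : Fin n ⊕ Fin n := if x.2 then Sum.inl x.1 else Sum.inr x.1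

theorem ev_cv {n : ℕ} {G : Type} [Group G] (π : Fin n → G) (w : List (Fin n × Bool)) :
    ev (sx π) (w.map cv) = FreeGroup.lift π (FreeGroup.mk w) := by
  induction w with
  | nil => rfl
  | cons x w ih =>
    rw [List.map_cons, ev_cons, ih]
    have e : (FreeGroup.mk (x :: w) : FreeGroup (Fin n)) = FreeGroup.mk [x] * FreeGroup.mk w := by
      rw [FreeGroup.mul_mk]; rfl
    rw [e, map_mul]
    congr 1
    obtain ⟨i, s⟩ := x
    cases s
    · simp [cv, sx]
    · simp [cv, sx]

/-- The right reversible monoid. -/
theorem reversible_monoid : ∃ (n : ℕ) (G : Type) (_ : Group G) (π : Fin n → G),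
    (∀ a ∈ Submonoid.closure (Set.range π), ∀ b ∈ Submonoid.closure (Set.range π),
      ∃ c ∈ Submonoid.closure (Set.range π), ∃ d ∈ Submonoid.closure (Set.range π),
        a * c = b * d) ∧
    (∀ x : G, ∃ p ∈ Submonoid.closure (Set.range π), ∃ q ∈ Submonoid.closure (Set.range π),
      x = p * q⁻¹) ∧
    ComputablePred (fun w : List (Fin n × Bool) => FreeGroup.lift π (FreeGroup.mk w) = 1) ∧
    ¬ ComputablePred (fun w : List (Fin n × Bool) =>
      FreeGroup.lift π (FreeGroup.mk w) ∈ Submonoid.closure (Set.range π)) := by
  obtain ⟨m, k, r, W, hW, hu⟩ := source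
  refine ⟨Fintype.card (L m k), G0 m, inferInstance, ga r,
    fun a ha b hb => PP_reversible r ha hb, PP_quot r, ?_, ?_⟩
  · obtain ⟨d, hd, hdp⟩ := ComputablePred.computable_iff.1 (wp_computable r)
    rw [ComputablePred.computable_iff]
    have h1 : Primrec fun w : List (Fin (Fintype.card (L m k)) × Bool) => w.map cv :=
      Primrec.list_map Primrec.id ((Primrec.dom_finite cv).comp Primrec.snd).to₂
    refine ⟨fun w => d (w.map cv, []), hd.comp (h1.to_comp.pair (Computable.const [])), ?_⟩
    funext w
    have h3 := congrFun hdp (w.map cv, [])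
    rw [← h3]
    simp only
    rw [ev_cv]
    rfl
  · intro hc
    apply hu
    obtain ⟨d, hd, hdp⟩ := ComputablePred.computable_iff.1 hc
    rw [ComputablePred.computable_iff]
    have h1 : Primrec fun l : List (Fin m × Bool) =>
        ((uw (k := k) l).map fun x => (x, true)) ++ List.replicate l.length (en m k lt, false) :=
      Primrec.list_append.comp
        (Primrec.list_map uw_prim ((Primrec.pair Primrec.id (Primrec.const true)).comp
          Primrec.snd).to₂)
        (rep_prim Primrec.list_length _)
    refine ⟨fun n => d (((uw (k := k) (W n)).map fun x => (x, true)) ++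
      List.replicate (W n).length (en m k lt, false)), hd.comp (h1.to_comp.comp hW), ?_⟩
    funext n
    have h3 := congrFun hdp (((uw (k := k) (W n)).map fun x => (x, true)) ++
      List.replicate (W n).length (en m k lt, false))
    rw [← h3]
    have h4 : FreeGroup.lift (ga r) (FreeGroup.mk (((uw (k := k) (W n)).map fun x => (x, true)) ++
        List.replicate (W n).length (en m k lt, false))) = (FreeGroup.mk (W n), 1, 1) := by
      rw [← ev_cv, List.map_append, ev_append, ← uw_val r]
      congr 1
      · rw [← ev_map_inl, List.map_map]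
        rfl
      · generalize (W n).length = N
        induction N with
        | zero => rfl
        | succ N ih =>
          rw [List.replicate_succ, List.map_cons, ev_cons, ih, pow_succ, mul_inv_rev]
          rfl
    rw [h4]
    simp only [mem_iff r]

end Pool.Agent.Q97.FF.Conc
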