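import Pool.Agent.Q97.FF.Pres

set_option autoImplicit false

/-!
# The maximal group image and membership in the prefix monoid
-/

namespace Pool.Agent.Q97.FF

open Pool.Agent.Helper707.IAlg Pool.Agent.Helper707.IModel

/-- extension of a map into a group to the inverse letters -/
def sx {A G : Type} [Group G] (f : A → G) : A ⊕ A → G := Sum.elim f (fun a => (f a)⁻¹)

theorem sx_swap {A G : Type} [Group G] (f : A → G) (c : A ⊕ A) : sx f c.swap = (sx f c)⁻¹ := by
  rcases c with a | a
  · rfl
  · simp [sx]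

theorem ev_nu_sx {A G : Type} [Group G] (f : A → G) (u : List (A ⊕ A)) :
    ev (sx f) (nu u) = (ev (sx f) u)⁻¹ := by
  induction u with
  | nil => simp [nu_nil, ev_nil]
  | cons c u ih => rw [nu_cons, ev_append, ih, ev_singleton, sx_swap, ev_cons, mul_inv_rev]

/-- the universal property of the group given by the relations -/
structure Pr {n : ℕ} (Λ : List (List (Fin n) × List (Fin n))) {G : Type} [Group G]
    (π : Fin n → G) : Prop where
  rel : ∀ p ∈ Λ, (p.1.map π).prod = (p.2.map π).prod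
  univ : ∀ (K : Type) [Group K] (ρ : Fin n → K),
    (∀ p ∈ Λ, (p.1.map ρ).prod = (p.2.map ρ).prod) → ∃ θ : G →* K, ∀ x, θ (π x) = ρ x

section
variable {n : ℕ} {Λ : List (List (Fin n) × List (Fin n))} {τ : Fin n} (H : Good Λ τ)
  {G : Type} [Group G] {π : Fin n → G} (P : Pr Λ π)

theorem ev_map_inl {A G : Type} [Group G] (f : A → G) (u : List A) :
    ev (sx f) (u.map Sum.inl) = (u.map f).prod := by
  simp only [ev, List.map_map]
  rfl

include P in
theorem exists_phi : ∃ φ : SInv (rels Λ) →* G, ∀ u, φ (val (rels Λ) u) = ev (sx π) u := by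
  let φ0 : FreeMonoid (Fin n ⊕ Fin n) →* G := FreeMonoid.lift (sx π)
  have h0 : ∀ u, φ0 (FreeMonoid.ofList u) = ev (sx π) u := by
    intro u
    simp only [φ0, FreeMonoid.lift_ofList, ev]
  have h1 : InvCon (rels Λ) ≤ Con.ker φ0 := by
    refine Con.conGen_le.2 ?_
    intro a b h
    show φ0 a = φ0 b
    rcases h with ⟨u, ha, hb⟩ | ⟨u, v, ha, hb⟩ | ⟨w, hw, ha, hb⟩
    · have h2 : φ0 (FreeMonoid.ofList ((FreeMonoid.toList u).reverse.map Sum.swap)) =
          (φ0 u)⁻¹ := by
        rw [h0]
        have := ev_nu_sx π (FreeMonoid.toList u)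
        rw [← h0 (FreeMonoid.toList u)] at this
        exact this
      rw [ha, hb, map_mul, map_mul, h2]
      group
    · have h2 : ∀ u : FreeMonoid (Fin n ⊕ Fin n),
          φ0 (FreeMonoid.ofList ((FreeMonoid.toList u).reverse.map Sum.swap)) = (φ0 u)⁻¹ := by
        intro u
        rw [h0]
        have := ev_nu_sx π (FreeMonoid.toList u)
        rw [← h0 (FreeMonoid.toList u)] at this
        exact this
      rw [ha, hb, map_mul, map_mul, map_mul, map_mul, map_mul, map_mul, h2, h2]
      group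
    · rw [ha, hb, h0, map_one]
      unfold rels at hw
      rcases List.mem_append.1 hw with h | h
      · obtain ⟨x, -, rfl⟩ := List.mem_map.1 h
        simp [ev, sx]
      · obtain ⟨p, hp, rfl⟩ := List.mem_map.1 h
        have := ev_nu_sx π (p.2.map Sum.inl)
        rw [ev_append, ev_map_inl]
        have h3 : ev (sx π) ((p.2.map Sum.inl).reverse.map Sum.swap) = _ := this
        rw [h3, ev_map_inl, P.rel p hp, mul_inv_cancel]
  refine ⟨Con.lift _ φ0 h1, fun u => ?_⟩
  rw [← h0]
  rfl

variable {φ : SInv (rels Λ) →* G} (hφ : ∀ u, φ (val (rels Λ) u) = ev (sx π) u)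

include hφ in
theorem phi_gp (x : Fin n) : φ (gp (rels Λ) x) = π x := by
  have := hφ [Sum.inl x]
  rw [ev_singleton] at this
  exact this

include hφ in
theorem phi_iv (s : SInv (rels Λ)) : φ (iv (rels Λ) s) = (φ s)⁻¹ := by
  obtain ⟨u, rfl⟩ := surj _ s
  rw [iv_ev, ev_gr, ev_gr, hφ, hφ, ev_nu_sx]

include H P hφ in
theorem con_iff_phi (a b : SInv (rels Λ)) : (shift H).con a b ↔ φ a = φ b := by
  have S := shift H
  constructor
  · rintro ⟨L, h⟩
    have := congrArg φ h
    rw [map_mul, map_mul] at this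
    exact mul_left_cancel this
  · intro h
    let Q : Type := (shift H).con.Quotient
    have hu1 : ∀ x : Fin n, ((gp (rels Λ) x : SInv (rels Λ)) : Q) *
        ((iv (rels Λ) (gp (rels Λ) x) : SInv (rels Λ)) : Q) = 1 := by
      intro x
      rw [← Con.coe_mul, run_gp, Con.coe_one]
    have hu2 : ∀ x : Fin n, ((iv (rels Λ) (gp (rels Λ) x) : SInv (rels Λ)) : Q) *
        ((gp (rels Λ) x : SInv (rels Λ)) : Q) = 1 := by
      intro x
      rw [← Con.coe_mul, ← Con.coe_one]
      exact (Con.eq _).2 ((shift H).con_i_mul (Submonoid.subset_closure ⟨x, rfl⟩))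
    let ρ : Fin n → Qˣ := fun x => ⟨_, _, hu1 x, hu2 x⟩
    have hρ : ∀ u : List (Fin n), (((u.map ρ).prod : Qˣ) : Q) =
        ((pv (rels Λ) u : SInv (rels Λ)) : Q) := by
      intro u
      induction u with
      | nil => rfl
      | cons x u ih =>
        rw [List.map_cons, List.prod_cons, Units.val_mul, ih, pv_cons, Con.coe_mul]
    obtain ⟨θ, hθ⟩ := P.univ Qˣ ρ (by
      intro p hp
      apply Units.ext
      rw [hρ, hρ, pv_eq_of_mem hp])
    have key : ∀ s : SInv (rels Λ), ((θ (φ s) : Qˣ) : Q) = (s : Q) := by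
      intro s
      obtain ⟨u, rfl⟩ := surj _ s
      induction u with
      | nil => rw [ev_nil, map_one, map_one]; rfl
      | cons c u ih =>
        rw [ev_cons, map_mul, map_mul, Units.val_mul, ih, Con.coe_mul]
        congr 1
        rcases c with x | x
        · have : φ (gr (rels Λ) (Sum.inl x)) = π x := phi_gp hφ x
          rw [this, hθ]
          rfl
        · have : φ (gr (rels Λ) (Sum.inr x)) = (π x)⁻¹ := by
            rw [← iv_gp, phi_iv hφ, phi_gp hφ]
          rw [this, map_inv, hθ, ← iv_gp]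
          rfl
    have h2 : ((a : SInv (rels Λ)) : Q) = (b : Q) := by rw [← key, ← key, h]
    exact (Con.eq _).1 h2

include H P hφ in
theorem sigma_iff_phi (a b : SInv (rels Λ)) : Sigma a b ↔ φ a = φ b := by
  rw [sigma_iff H, con_iff_phi H P hφ]

include hφ in
theorem phi_pv (u : List (Fin n)) : φ (pv (rels Λ) u) = (u.map π).prod := by
  rw [pv_eq, hφ, ev_map_inl]

include hφ in
theorem phi_mem {s : SInv (rels Λ)} (hs : s ∈ Submonoid.closure (Set.range (gp (rels Λ)))) :
    φ s ∈ Submonoid.closure (Set.range π) := by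
  induction hs using Submonoid.closure_induction with
  | mem x hx => obtain ⟨x, rfl⟩ := hx; rw [phi_gp hφ]; exact Submonoid.subset_closure ⟨x, rfl⟩
  | one => rw [map_one]; exact one_mem _
  | mul x y _ _ hx hy => rw [map_mul]; exact mul_mem hx hy

include hφ in
theorem exists_pos {g : G} (hg : g ∈ Submonoid.closure (Set.range π)) :
    ∃ s ∈ Submonoid.closure (Set.range (gp (rels Λ))), φ s = g := by
  induction hg using Submonoid.closure_induction with
  | mem x hx =>
    obtain ⟨x, rfl⟩ := hx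
    exact ⟨_, Submonoid.subset_closure ⟨x, rfl⟩, phi_gp hφ x⟩
  | one => exact ⟨1, one_mem _, map_one _⟩
  | mul x y _ _ hx hy =>
    obtain ⟨s, hs, rfl⟩ := hx
    obtain ⟨s', hs', rfl⟩ := hy
    exact ⟨s * s', mul_mem hs hs', map_mul _ _ _⟩

/-- the test word -/
def tw (τ : Fin n) (U : List (Fin n)) (L : ℕ) : List (Fin n ⊕ Fin n) :=
  U.map Sum.inl ++ List.replicate L (Sum.inr τ)

theorem val_rep (L : ℕ) : val (rels Λ) (List.replicate L (Sum.inr τ)) =
    iv (rels Λ) (gp (rels Λ) τ ^ L) := by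
  have hi := isInv (rels Λ)
  induction L with
  | zero => rw [List.replicate_zero, pow_zero, hi.one]; rfl
  | succ L ih =>
    rw [List.replicate_succ, ← ev_gr, ev_cons, ev_gr, ih, ← iv_gp, pow_succ, hi.im]

include H P in
theorem word_iff (U : List (Fin n)) (L : ℕ) :
    val (rels Λ) (tw τ U L ++ (tw τ U L).reverse.map Sum.swap) = val (rels Λ) [] ↔
      (U.map π).prod * (π τ ^ L)⁻¹ ∈ Submonoid.closure (Set.range π) := by
  obtain ⟨φ, hφ⟩ := exists_phi P
  have hi := isInv (rels Λ)
  have h1 : val (rels Λ) (tw τ U L) = pv (rels Λ) U * iv (rels Λ) (gp (rels Λ) τ ^ L) := by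
    rw [tw, val_append, val_rep, pv_eq]
  have h2 : val (rels Λ) (tw τ U L ++ (tw τ U L).reverse.map Sum.swap) =
      val (rels Λ) (tw τ U L) * iv (rels Λ) (val (rels Λ) (tw τ U L)) := by
    rw [val_append]
    congr 1
    exact val_nu (rels Λ) _
  have h3 : val (rels Λ) ([] : List (Fin n ⊕ Fin n)) = 1 := rfl
  have h4 : φ (val (rels Λ) (tw τ U L)) = (U.map π).prod * (π τ ^ L)⁻¹ := by
    rw [h1, map_mul, phi_iv hφ, map_pow, phi_gp hφ, phi_pv hφ]
  rw [h2, h3, ← h4]
  constructor
  · intro h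
    exact phi_mem hφ (pos_of_right h)
  · intro h
    obtain ⟨s, hs, h5⟩ := exists_pos hφ h
    have h6 : s * gp (rels Λ) τ ^ L = pv (rels Λ) U := by
      apply (shift H).pos_inj (mul_mem hs ((shift H).t_mem L)) (pv_mem U)
      rw [con_iff_phi H P hφ, map_mul, h5, h4, map_pow, phi_gp hφ, phi_pv hφ,
        inv_mul_cancel_right]
    have h7 : val (rels Λ) (tw τ U L) = s := by
      rw [h1, ← h6, mul_assoc, (shift H).i_t, mul_one]
    rw [h7]
    exact (shift H).unit_pos hs

end

end Pool.Agent.Q97.FF
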