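import Pool.Agent.Q97.FF.Conc
import Pool.Agent.H715R3.MedvA
import Pool.Agent.Helper446.LS.WPB

set_option autoImplicit false

/-!
# Membership and computability
-/

namespace Pool.Agent.Q97.FF.Conc

open Pool.Agent.Q97.FF Pool.Agent.Helper707.IAlg

section
variable {m k : ℕ} (r : Fin k → List (Fin m × Bool))

/-- the prefix monoid -/
noncomputable abbrev PP : Submonoid (G0 m) := Submonoid.closure (Set.range (ga r))

/-- the normal subgroup of the relators -/
abbrev NN : Subgroup (FreeGroup (Fin m)) :=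
  Subgroup.normalClosure (Set.range fun j => FreeGroup.mk (r j))

theorem pi_mem (x : L m k) : pi r x ∈ PP r :=
  Submonoid.subset_closure ⟨en m k x, by simp [ga]⟩

/-- the exponent of the central letter -/
def ex : FreeGroup (Fin 1) →* Multiplicative ℤ := FreeGroup.lift fun _ => Multiplicative.ofAdd 1

theorem ex_of : ex (FreeGroup.of 0) = Multiplicative.ofAdd 1 := FreeGroup.lift_apply_of

theorem mem_PP_sound (g : G0 m) (hg : g ∈ PP r) :
    0 < (ex g.2.2).toAdd ∨ ((ex g.2.2).toAdd = 0 ∧ g.1 * g.2.1⁻¹ ∈ NN r) := by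
  induction hg using Submonoid.closure_induction with
  | mem x hx =>
    obtain ⟨y, rfl⟩ := hx
    obtain ⟨y, rfl⟩ := (en m k).surjective y
    simp only [ga, Equiv.symm_apply_apply]
    rcases y with - | (⟨q, i, s⟩ | ⟨j, s⟩)
    · left
      rw [show (none : L m k) = lt from rfl, pi_t]
      simp only [ex_of, toAdd_ofAdd]
      norm_num
    · fin_cases q
      · left
        show 0 < (ex (pi r (la i s)).2.2).toAdd
        rw [pi_a, ex_of]
        norm_num
      · left
        show 0 < (ex (pi r (lb i s)).2.2).toAdd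
        rw [pi_b, ex_of]
        norm_num
      · right
        show (ex (pi r (ld i s)).2.2).toAdd = 0 ∧ (pi r (ld i s)).1 * (pi r (ld i s)).2.1⁻¹ ∈ NN r
        rw [pi_d]
        refine ⟨by simp, ?_⟩
        rw [mul_inv_cancel]
        exact one_mem _
    · right
      cases s
      · show (ex (pi r (lc j false)).2.2).toAdd = 0 ∧
          (pi r (lc j false)).1 * (pi r (lc j false)).2.1⁻¹ ∈ NN r
        rw [pi_c0]
        refine ⟨by simp, ?_⟩
        rw [inv_one, mul_one]
        exact inv_mem (Subgroup.subset_normalClosure ⟨j, rfl⟩)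
      · show (ex (pi r (lc j true)).2.2).toAdd = 0 ∧
          (pi r (lc j true)).1 * (pi r (lc j true)).2.1⁻¹ ∈ NN r
        rw [pi_c1]
        refine ⟨by simp, ?_⟩
        rw [inv_one, mul_one]
        exact Subgroup.subset_normalClosure ⟨j, rfl⟩
  | one => right; exact ⟨by simp, by simp⟩
  | mul x y _ _ hx hy =>
    have e1 : (ex (x * y).2.2).toAdd = (ex x.2.2).toAdd + (ex y.2.2).toAdd := by
      rw [Prod.snd_mul, Prod.snd_mul, map_mul, toAdd_mul]
    rw [e1]
    rcases hx with hx | ⟨hx, hx'⟩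
    · left
      rcases hy with hy | ⟨hy, _⟩
      · omega
      · omega
    · rcases hy with hy | ⟨hy, hy'⟩
      · left; omega
      · right
        refine ⟨by omega, ?_⟩
        have e2 : (x * y).1 * (x * y).2.1⁻¹ = (x.1 * (y.1 * y.2.1⁻¹) * x.1⁻¹) * (x.1 * x.2.1⁻¹) := by
          rw [Prod.fst_mul, Prod.snd_mul, Prod.fst_mul]
          group
        rw [e2]
        exact mul_mem (Subgroup.normalClosure_normal.conj_mem _ hy' _) hx'

/-- the elements of the first factor which are units of the prefix monoid -/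
noncomputable def UU : Subgroup (FreeGroup (Fin m)) where
  carrier := {g | ((g, 1, 1) : G0 m) ∈ PP r ∧ ((g⁻¹, 1, 1) : G0 m) ∈ PP r}
  one_mem' := by
    have h : ((1, 1, 1) : G0 m) ∈ PP r := one_mem _
    exact ⟨h, by rw [inv_one]; exact h⟩
  mul_mem' := by
    rintro a b ⟨ha, ha'⟩ ⟨hb, hb'⟩
    refine ⟨?_, ?_⟩
    · have := mul_mem ha hb
      simpa using this
    · have := mul_mem hb' ha'
      simpa using this
  inv_mem' := by
    rintro a ⟨ha, ha'⟩
    exact ⟨ha', by rw [inv_inv]; exact ha⟩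

theorem conj_letter {g : FreeGroup (Fin m)} (hg : g ∈ UU r) (i : Fin m) (s : Bool) :
    FreeGroup.mk [(i, s)] * g * FreeGroup.mk [(i, !s)] ∈ UU r := by
  obtain ⟨h1, h2⟩ := hg
  have d1 : ((FreeGroup.mk [(i, s)], FreeGroup.mk [(i, s)], 1) : G0 m) ∈ PP r := by
    rw [← pi_d (k := k) r]; exact pi_mem r _
  have d2 : ((FreeGroup.mk [(i, !s)], FreeGroup.mk [(i, !s)], 1) : G0 m) ∈ PP r := by
    rw [← pi_d (k := k) r]; exact pi_mem r _
  have e : FreeGroup.mk [(i, !s)] = (FreeGroup.mk [(i, s)] : FreeGroup (Fin m))⁻¹ := by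
    rw [FreeGroup.inv_mk]; rfl
  refine ⟨?_, ?_⟩
  · have := mul_mem (mul_mem d1 h1) d2
    rw [e] at this ⊢
    simp only [Prod.mk_mul_mk, mul_one, mul_inv_cancel] at this
    exact this
  · have := mul_mem (mul_mem d1 h2) d2
    rw [e] at this ⊢
    simp only [Prod.mk_mul_mk, mul_one, mul_inv_cancel] at this
    have e3 : (FreeGroup.mk [(i, s)] * g * (FreeGroup.mk [(i, s)])⁻¹)⁻¹ =
      (FreeGroup.mk [(i, s)] * g⁻¹ * (FreeGroup.mk [(i, s)])⁻¹ : FreeGroup (Fin m)) := by group
    rw [e3]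
    exact this

instance : (UU r).Normal where
  conj_mem n hn g := by
    induction g using FreeGroup.induction_on generalizing n with
    | C1 => simpa using hn
    | of i =>
      have := conj_letter r hn i true
      have e : (FreeGroup.mk [(i, !true)] : FreeGroup (Fin m)) = (FreeGroup.of i)⁻¹ := rfl
      rw [e] at this
      exact this
    | inv_of i _ =>
      have := conj_letter r hn i false
      have e : (FreeGroup.mk [(i, !false)] : FreeGroup (Fin m)) = FreeGroup.of i := rfl
      have e' : (FreeGroup.mk [(i, false)] : FreeGroup (Fin m)) = (FreeGroup.of i)⁻¹ := rfl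
      rw [e, e'] at this
      rw [inv_inv]
      exact this
    | mul a b ha hb =>
      have := ha _ (hb _ hn)
      have e : a * b * n * (a * b)⁻¹ = a * (b * n * b⁻¹) * a⁻¹ := by group
      rw [e]
      exact this

theorem NN_le : NN r ≤ UU r := by
  apply Subgroup.normalClosure_le_normal
  rintro _ ⟨j, rfl⟩
  refine ⟨?_, ?_⟩
  · rw [← pi_c1 (k := k) r]; exact pi_mem r _
  · have := pi_mem r (lc j false)
    rw [pi_c0] at this
    exact this

theorem mem_iff (g : FreeGroup (Fin m)) : ((g, 1, 1) : G0 m) ∈ PP r ↔ g ∈ NN r := by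
  constructor
  · intro h
    rcases mem_PP_sound r _ h with h1 | ⟨_, h1⟩
    · simp at h1
    · simpa using h1
  · intro h
    exact (NN_le r h).1

/-- everything becomes positive after multiplication with a power of the central element -/
theorem big (g : G0 m) : ∃ N : ℕ, ∀ N', N ≤ N' → g * (1, 1, FreeGroup.of 0) ^ N' ∈ PP r := by
  have cz : ∀ (x : G0 m) (N : ℕ), x * (1, 1, FreeGroup.of 0) ^ N = (1, 1, FreeGroup.of 0) ^ N * x := by
    intro x N
    rw [Prod.pow_mk, Prod.pow_mk]
    obtain ⟨a, b, c⟩ := x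
    simp only [Prod.mk_mul_mk, one_pow, one_mul, mul_one]
    rw [comm1]
  have ht : ∀ N : ℕ, ((1, 1, FreeGroup.of 0) : G0 m) ^ N ∈ PP r := by
    intro N
    rw [← pi_t (k := k) r]
    exact pow_mem (pi_mem r _) N
  have hmul : ∀ a b : G0 m, (∃ N : ℕ, ∀ N', N ≤ N' → a * (1, 1, FreeGroup.of 0) ^ N' ∈ PP r) →
      (∃ N : ℕ, ∀ N', N ≤ N' → b * (1, 1, FreeGroup.of 0) ^ N' ∈ PP r) →
      (∃ N : ℕ, ∀ N', N ≤ N' → a * b * (1, 1, FreeGroup.of 0) ^ N' ∈ PP r) := by
    rintro a b ⟨N, hN⟩ ⟨M, hM⟩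
    refine ⟨N + M, fun N' h => ?_⟩
    obtain ⟨d, rfl⟩ := Nat.exists_eq_add_of_le h
    have : a * b * (1, 1, FreeGroup.of 0) ^ (N + M + d) =
        (a * (1, 1, FreeGroup.of 0) ^ N) * (b * (1, 1, FreeGroup.of 0) ^ (M + d)) := by
      rw [add_assoc, pow_add, mul_assoc a, ← mul_assoc b, cz b N]
      simp only [mul_assoc]
    rw [this]
    exact mul_mem (hN N le_rfl) (hM _ (by omega))
  obtain ⟨x, y, z⟩ := g
  have h1 : ∀ x : FreeGroup (Fin m), ∃ N : ℕ, ∀ N', N ≤ N' →
      ((x, 1, 1) : G0 m) * (1, 1, FreeGroup.of 0) ^ N' ∈ PP r := by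
    intro x
    have hl : ∀ i s, ∃ N : ℕ, ∀ N', N ≤ N' →
        ((FreeGroup.mk [(i, s)], 1, 1) : G0 m) * (1, 1, FreeGroup.of 0) ^ N' ∈ PP r := by
      intro i s
      refine ⟨1, fun N' h => ?_⟩
      obtain ⟨d, rfl⟩ := Nat.exists_eq_add_of_le h
      rw [pow_add, pow_one, ← mul_assoc]
      refine mul_mem ?_ (ht d)
      have := pi_mem r (la i s)
      rw [pi_a] at this
      simpa using this
    induction x using FreeGroup.induction_on with
    | C1 => exact ⟨0, fun N' _ => mul_mem (one_mem _) (ht N')⟩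
    | of i => exact hl i true
    | inv_of i _ => exact hl i false
    | mul a b ha hb =>
      have := hmul _ _ ha hb
      simpa using this
  have h2 : ∀ x : FreeGroup (Fin m), ∃ N : ℕ, ∀ N', N ≤ N' →
      ((1, x, 1) : G0 m) * (1, 1, FreeGroup.of 0) ^ N' ∈ PP r := by
    intro x
    have hl : ∀ i s, ∃ N : ℕ, ∀ N', N ≤ N' →
        ((1, FreeGroup.mk [(i, s)], 1) : G0 m) * (1, 1, FreeGroup.of 0) ^ N' ∈ PP r := by
      intro i s
      refine ⟨1, fun N' h => ?_⟩
      obtain ⟨d, rfl⟩ := Nat.exists_eq_add_of_le h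
      rw [pow_add, pow_one, ← mul_assoc]
      refine mul_mem ?_ (ht d)
      have := pi_mem r (lb i s)
      rw [pi_b] at this
      simpa using this
    induction x using FreeGroup.induction_on with
    | C1 => exact ⟨0, fun N' _ => mul_mem (one_mem _) (ht N')⟩
    | of i => exact hl i true
    | inv_of i _ => exact hl i false
    | mul a b ha hb =>
      have := hmul _ _ ha hb
      simpa using this
  have h3 : ∀ x : FreeGroup (Fin 1), ∃ N : ℕ, ∀ N', N ≤ N' →
      ((1, 1, x) : G0 m) * (1, 1, FreeGroup.of 0) ^ N' ∈ PP r := by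
    intro x
    induction x using FreeGroup.induction_on with
    | C1 => exact ⟨0, fun N' _ => mul_mem (one_mem _) (ht N')⟩
    | of i =>
      refine ⟨0, fun N' _ => mul_mem ?_ (ht N')⟩
      rw [Subsingleton.elim i 0]
      have := ht 1
      rwa [pow_one] at this
    | inv_of i _ =>
      refine ⟨1, fun N' h => ?_⟩
      obtain ⟨d, rfl⟩ := Nat.exists_eq_add_of_le h
      rw [Subsingleton.elim i 0, pow_add, pow_one, ← mul_assoc]
      refine mul_mem ?_ (ht d)
      have : ((1, 1, (FreeGroup.of 0)⁻¹) : G0 m) * (1, 1, FreeGroup.of 0) = 1 := by simp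
      rw [this]
      exact one_mem _
    | mul a b ha hb =>
      have := hmul _ _ ha hb
      simpa using this
  have h4 := hmul _ _ (hmul _ _ (h1 x) (h2 y)) (h3 z)
  simpa using h4

theorem PP_reversible {a b : G0 m} (_ha : a ∈ PP r) (_hb : b ∈ PP r) :
    ∃ c ∈ PP r, ∃ d ∈ PP r, a * c = b * d := by
  obtain ⟨N, hN⟩ := big r (a⁻¹ * b)
  refine ⟨_, hN N le_rfl, (1, 1, FreeGroup.of 0) ^ N, ?_, ?_⟩
  · rw [← pi_t (k := k) r]; exact pow_mem (pi_mem r _) N
  · rw [← mul_assoc, mul_inv_cancel_left]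

theorem PP_quot (x : G0 m) : ∃ p ∈ PP r, ∃ q ∈ PP r, x = p * q⁻¹ := by
  obtain ⟨N, hN⟩ := big r x
  refine ⟨_, hN N le_rfl, (1, 1, FreeGroup.of 0) ^ N, ?_, ?_⟩
  · rw [← pi_t (k := k) r]; exact pow_mem (pi_mem r _) N
  · rw [mul_inv_cancel_right]

/-! ### computability -/

/-- coordinates of a signed letter -/
noncomputable def z1 (x : Fin (Fintype.card (L m k)) ⊕ Fin (Fintype.card (L m k))) :
    List (Fin m × Bool) :=
  Sum.elim (fun y => w1 r ((en m k).symm y)) (fun y => FreeGroup.invRev (w1 r ((en m k).symm y))) x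

noncomputable def z2 (x : Fin (Fintype.card (L m k)) ⊕ Fin (Fintype.card (L m k))) :
    List (Fin m × Bool) :=
  Sum.elim (fun y => w2 ((en m k).symm y)) (fun y => FreeGroup.invRev (w2 ((en m k).symm y))) x

noncomputable def z3 (x : Fin (Fintype.card (L m k)) ⊕ Fin (Fintype.card (L m k))) :
    List (Fin 1 × Bool) :=
  Sum.elim (fun y => w3 ((en m k).symm y)) (fun y => FreeGroup.invRev (w3 ((en m k).symm y))) x

theorem ev_coord (u : List (Fin (Fintype.card (L m k)) ⊕ Fin (Fintype.card (L m k)))) :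
    ev (sx (ga r)) u = (FreeGroup.mk (u.flatMap (z1 r)), FreeGroup.mk (u.flatMap z2),
      FreeGroup.mk (u.flatMap z3)) := by
  induction u with
  | nil => rfl
  | cons x u ih =>
    have h : sx (ga r) x = (FreeGroup.mk (z1 r x), FreeGroup.mk (z2 x), FreeGroup.mk (z3 x)) := by
      rcases x with x | x
      · rfl
      · simp only [sx, Sum.elim_inr, ga, pi, z1, z2, z3, ← FreeGroup.inv_mk, Prod.inv_mk]
    rw [ev_cons, ih, h, Prod.mk_mul_mk, Prod.mk_mul_mk, FreeGroup.mul_mk, FreeGroup.mul_mk,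
      FreeGroup.mul_mk, List.flatMap_cons, List.flatMap_cons, List.flatMap_cons]

theorem pr_flat {α β : Type} [Primcodable α] [Finite α] [Primcodable β] (f : α → List β) :
    Primrec fun u : List α => u.flatMap f :=
  Primrec.list_flatMap Primrec.id ((Primrec.dom_finite f).comp Primrec.snd).to₂

theorem mk_eq_iff {α : Type} [DecidableEq α] (u v : List (α × Bool)) :
    FreeGroup.mk u = FreeGroup.mk v ↔ FreeGroup.reduce u = FreeGroup.reduce v :=
  ⟨fun h => FreeGroup.reduce.sound h, fun h => FreeGroup.reduce.exact h⟩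

theorem wp_computable : ComputablePred fun p : List (Fin (Fintype.card (L m k)) ⊕
    Fin (Fintype.card (L m k))) × List (Fin (Fintype.card (L m k)) ⊕ Fin (Fintype.card (L m k))) =>
      ev (sx (ga r)) p.1 = ev (sx (ga r)) p.2 := by
  have key : ∀ (a : ℕ) (z : (Fin (Fintype.card (L m k)) ⊕ Fin (Fintype.card (L m k))) →
      List (Fin a × Bool)), PrimrecPred fun p : List (Fin (Fintype.card (L m k)) ⊕
      Fin (Fintype.card (L m k))) × List (Fin (Fintype.card (L m k)) ⊕
      Fin (Fintype.card (L m k))) => FreeGroup.reduce (p.1.flatMap z) =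
        FreeGroup.reduce (p.2.flatMap z) := by
    intro a z
    exact Primrec.eq.comp
      (Pool.Agent.H715R3.Medv.reduce_primrec.comp ((pr_flat z).comp Primrec.fst))
      (Pool.Agent.H715R3.Medv.reduce_primrec.comp ((pr_flat z).comp Primrec.snd))
  have h := ((key m (z1 r)).and (key m (z2 (k := k)))).and (key 1 (z3 (m := m) (k := k)))
  have h2 : PrimrecPred fun p : List (Fin (Fintype.card (L m k)) ⊕
    Fin (Fintype.card (L m k))) × List (Fin (Fintype.card (L m k)) ⊕ Fin (Fintype.card (L m k))) =>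
      ev (sx (ga r)) p.1 = ev (sx (ga r)) p.2 := by
    refine h.of_eq fun p => ?_
    rw [ev_coord, ev_coord, Prod.mk.injEq, Prod.mk.injEq, mk_eq_iff, mk_eq_iff, mk_eq_iff, and_assoc]
  exact h2.computablePred

end

end Pool.Agent.Q97.FF.Conc
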