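import Pool.Agent.Q97.FF.Alg
import Pool.Agent.Q97.FF.Defs
import Pool.Agent.Helper707.IModel
import Pool.Agent.H679R3.OR.Inv

set_option autoImplicit false

/-!
# The inverse monoid given by positive relations
-/

namespace Pool.Agent.Q97.FF

open Pool.Agent.Helper707.IAlg Pool.Agent.Helper707.IModel

section general
variable {A : Type} (R : List (List (A ⊕ A)))

/-- generators -/
def gr (x : A ⊕ A) : SInv R := val R [x]

theorem ev_gr (u : List (A ⊕ A)) : ev (gr R) u = val R u := by
  induction u with
  | nil => rfl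
  | cons x u ih => rw [ev_cons, ih]; rfl

theorem isInvGen : IsInvGen (gr R) where
  reg u := by
    simp only [ev_gr, nu, val, ← Con.coe_mul]
    refine (Con.eq _).2 (ConGen.Rel.of _ _ (Or.inl ⟨FreeMonoid.ofList u, ?_, rfl⟩))
    rfl
  comm u v := by
    simp only [ev_gr, nu, val, ← Con.coe_mul]
    refine (Con.eq _).2 (ConGen.Rel.of _ _ (Or.inr (Or.inl
      ⟨FreeMonoid.ofList u, FreeMonoid.ofList v, ?_, ?_⟩)))
    · rfl
    · rfl

theorem val_rel {w : List (A ⊕ A)} (hw : w ∈ R) : val R w = 1 := by
  rw [val, ← Con.coe_one]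
  exact (Con.eq _).2 (ConGen.Rel.of _ _ (Or.inr (Or.inr ⟨w, hw, rfl, rfl⟩)))

theorem surj (x : SInv R) : ∃ u, ev (gr R) u = x := by
  obtain ⟨u, rfl⟩ := Con.mk'_surjective x
  exact ⟨FreeMonoid.toList u, by rw [ev_gr]; rfl⟩

open Classical in
/-- the inverse -/
noncomputable def iv (x : SInv R) : SInv R := ev (gr R) (nu (surj R x).choose)

theorem iv_ev (u : List (A ⊕ A)) : iv R (ev (gr R) u) = ev (gr R) (nu u) := by
  have hf := isInvGen R
  set v := (surj R (ev (gr R) u)).choose with hv
  have hv1 : ev (gr R) v = ev (gr R) u := (surj R (ev (gr R) u)).choose_spec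
  have a1 := hf.reg v
  have a2 := hf.reg (nu v)
  have b1 := hf.reg u
  have b2 := hf.reg (nu u)
  rw [nu_nu] at a2 b2
  rw [hv1] at a1 a2
  exact Pool.H679R3.OR.Inv.unique_of_comm
    (fun a b ha hb => Pool.H679R3.OR.Inv.idem_comm hf (surj R) ha hb) a1 a2 b1 b2

theorem isInv : IsInv (iv R) where
  ii a := by
    obtain ⟨u, rfl⟩ := surj R a
    rw [iv_ev, iv_ev, nu_nu]
  im a b := by
    obtain ⟨u, rfl⟩ := surj R a
    obtain ⟨v, rfl⟩ := surj R b
    rw [← ev_append, iv_ev, iv_ev, iv_ev, nu_append, ev_append]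
  reg a := by
    obtain ⟨u, rfl⟩ := surj R a
    rw [iv_ev]
    exact (isInvGen R).reg u
  comm a b := by
    obtain ⟨u, rfl⟩ := surj R a
    obtain ⟨v, rfl⟩ := surj R b
    rw [iv_ev, iv_ev]
    exact (isInvGen R).comm u v

/-- positive generators -/
def gp (x : A) : SInv R := gr R (Sum.inl x)

theorem iv_gp (x : A) : iv R (gp R x) = gr R (Sum.inr x) := by
  have h := iv_ev R [Sum.inl x]
  rw [ev_singleton, nu_singleton, ev_singleton] at h
  exact h

theorem gen : Submonoid.closure (Set.range (gp R) ∪ Set.range (fun x => iv R (gp R x))) = ⊤ := by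
  rw [eq_top_iff]
  rintro x -
  obtain ⟨u, rfl⟩ := surj R x
  induction u with
  | nil => exact one_mem _
  | cons c u ih =>
    rw [ev_cons]
    refine mul_mem ?_ ih
    rcases c with x | x
    · exact Submonoid.subset_closure (Or.inl ⟨x, rfl⟩)
    · exact Submonoid.subset_closure (Or.inr ⟨x, iv_gp R x⟩)

/-- evaluation of positive words -/
def pv (u : List A) : SInv R := (u.map (gp R)).prod

theorem pv_eq (u : List A) : pv R u = val R (u.map Sum.inl) := by
  rw [← ev_gr]
  simp only [pv, ev, List.map_map]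
  rfl

theorem val_append (u v : List (A ⊕ A)) : val R (u ++ v) = val R u * val R v := by
  rw [← ev_gr, ev_append, ev_gr, ev_gr]

theorem val_nu (u : List (A ⊕ A)) : val R (nu u) = iv R (val R u) := by
  rw [← ev_gr, ← ev_gr, iv_ev]

/-- an action in which all relators are the identity -/
theorem act_run {Ω : Type} (S : Act A Ω) (hR : ∀ w ∈ R, ∀ ω, S.run w ω = some ω)
    {u v : List (A ⊕ A)} (h : val R u = val R v) (ω : Ω) : S.run u ω = S.run v ω := by
  have h1 : InvCon R ≤ S.ker := by
    refine Con.conGen_le.2 ?_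
    intro a b h ω
    rcases h with ⟨u, ha, hb⟩ | ⟨u, v, ha, hb⟩ | ⟨w, hw, ha, hb⟩
    · rw [ha, hb]
      exact S.run_reg (FreeMonoid.toList u) ω
    · rw [ha, hb]
      exact S.run_comm (FreeMonoid.toList u) (FreeMonoid.toList v) ω
    · rw [ha, hb]
      exact hR w hw ω
  exact h1 ((Con.eq _).1 h) ω

end general

/-- equality of two right units from a relation `u v⁻¹ = 1` -/
theorem eq_of_mul_i {M : Type} [Monoid M] {i : M → M} (hi : IsInv i) {a b : M}
    (h : a * i b = 1) : a = b := by
  have h' : b * i a = 1 := by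
    have := congrArg i h
    rw [hi.im, hi.ii, hi.one] at this
    exact this
  have e1 : b = a * (i b * b) := by rw [← mul_assoc, h, one_mul]
  have e2 : a = b * (i a * a) := by rw [← mul_assoc, h', one_mul]
  have hc : i b * b * (i a * a) = i a * a * (i b * b) :=
    hi.idem_comm (hi.idem_l b) (hi.idem_l a)
  have ra : a * (i a * a) = a := by rw [← mul_assoc, hi.reg]
  calc a = b * (i a * a) := e2
    _ = a * (i b * b) * (i a * a) := by rw [← e1]
    _ = a * (i a * a) * (i b * b) := by rw [mul_assoc, hc, ← mul_assoc]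
    _ = b := by rw [ra, ← e1]

/-- the relators of the presentation: `x x⁻¹` for all letters and `u v⁻¹` for the listed pairs -/
def rels {n : ℕ} (Λ : List (List (Fin n) × List (Fin n))) : List (List (Fin n ⊕ Fin n)) :=
  (List.finRange n).map (fun x => [Sum.inl x, Sum.inr x]) ++
    Λ.map (fun p => p.1.map Sum.inl ++ (p.2.map Sum.inl).reverse.map Sum.swap)

/-- The hypotheses on the list of relations. -/
structure Good {n : ℕ} (Λ : List (List (Fin n) × List (Fin n))) (τ : Fin n) : Prop where
  cen : ∀ x, ([x, τ], [τ, x]) ∈ Λ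
  div : ∀ x, x = τ ∨ ∃ (p : List (Fin n)) (k : ℕ), (p ++ [x], List.replicate k τ) ∈ Λ

section good
variable {n : ℕ} {Λ : List (List (Fin n) × List (Fin n))} {τ : Fin n} (H : Good Λ τ)

theorem run_gp (x : Fin n) : gp (rels Λ) x * iv (rels Λ) (gp (rels Λ) x) = 1 := by
  rw [iv_gp]
  have h : [Sum.inl x, Sum.inr x] ∈ rels Λ := by
    unfold rels
    exact List.mem_append_left _ (List.mem_map.2 ⟨x, List.mem_finRange x, rfl⟩)
  have := val_rel (rels Λ) h
  rw [← ev_gr] at this
  rw [← this]
  simp [ev, gp]

theorem pv_cons (x : Fin n) (u : List (Fin n)) :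
    pv (rels Λ) (x :: u) = gp (rels Λ) x * pv (rels Λ) u := by
  simp [pv]

theorem pv_append (u v : List (Fin n)) :
    pv (rels Λ) (u ++ v) = pv (rels Λ) u * pv (rels Λ) v := by
  simp [pv]

theorem pv_mem (u : List (Fin n)) :
    pv (rels Λ) u ∈ Submonoid.closure (Set.range (gp (rels Λ))) := by
  induction u with
  | nil => exact one_mem _
  | cons x u ih => rw [pv_cons]; exact mul_mem (Submonoid.subset_closure ⟨x, rfl⟩) ih

theorem pv_unit (u : List (Fin n)) :
    pv (rels Λ) u * iv (rels Λ) (pv (rels Λ) u) = 1 := by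
  have hi := isInv (rels Λ)
  induction u with
  | nil =>
    have : pv (rels Λ) ([] : List (Fin n)) = 1 := rfl
    rw [this, hi.one, one_mul]
  | cons x u ih =>
    rw [pv_cons, hi.im, mul_assoc, ← mul_assoc (pv (rels Λ) u), ih, one_mul, run_gp]

theorem rel_mem {p : List (Fin n) × List (Fin n)} (hp : p ∈ Λ) :
    p.1.map Sum.inl ++ nu (p.2.map Sum.inl) ∈ rels Λ := by
  unfold rels
  exact List.mem_append_right _ (List.mem_map.2 ⟨p, hp, rfl⟩)

theorem pv_eq_of_mem {p : List (Fin n) × List (Fin n)} (hp : p ∈ Λ) :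
    pv (rels Λ) p.1 = pv (rels Λ) p.2 := by
  apply eq_of_mul_i (isInv (rels Λ))
  have h := val_rel (rels Λ) (rel_mem hp)
  rw [val_append, val_nu, ← pv_eq, ← pv_eq] at h
  exact h

include H in
theorem shift : Shift (iv (rels Λ)) (gp (rels Λ)) (gp (rels Λ) τ) where
  hi := isInv _
  gen := gen _
  run := run_gp
  ht := Submonoid.subset_closure ⟨τ, rfl⟩
  cen x := by
    have h := pv_eq_of_mem (H.cen x)
    simpa [pv] using h
  div x := by
    rcases H.div x with rfl | ⟨p, k, h⟩
    · exact ⟨1, one_mem _, 1, by rw [one_mul, pow_one]⟩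
    · refine ⟨pv (rels Λ) p, pv_mem p, k, ?_⟩
      have h1 := pv_eq_of_mem h
      rw [pv_append] at h1
      simpa [pv] using h1

open Classical in
/-- the action on the positive part -/
noncomputable def act (Λ : List (List (Fin n) × List (Fin n))) :
    Act (Fin n) (Submonoid.closure (Set.range (gp (rels Λ)))) where
  step x a := match x with
    | Sum.inl x => some (a * ⟨gp (rels Λ) x, Submonoid.subset_closure ⟨x, rfl⟩⟩)
    | Sum.inr x => if h : ∃ b : Submonoid.closure (Set.range (gp (rels Λ))),
        b.1 * gp (rels Λ) x = a.1 then some h.choose else none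
  symm := by
    have canc : ∀ (x : Fin n) (a b : SInv (rels Λ)),
        a * gp (rels Λ) x = b * gp (rels Λ) x → a = b := by
      intro x a b h
      have h1 := congrArg (· * iv (rels Λ) (gp (rels Λ) x)) h
      simp only [mul_assoc, run_gp, mul_one] at h1
      exact h1
    rintro (x | x) a b h
    · simp only [Option.some.injEq] at h
      subst h
      have hex : ∃ b : Submonoid.closure (Set.range (gp (rels Λ))), b.1 * gp (rels Λ) x =
          (a * ⟨gp (rels Λ) x, Submonoid.subset_closure ⟨x, rfl⟩⟩ :
            Submonoid.closure (Set.range (gp (rels Λ)))).1 := ⟨a, rfl⟩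
      simp only [Sum.swap_inl]
      rw [dif_pos hex]
      congr 1
      exact Subtype.ext (canc x _ _ hex.choose_spec)
    · simp only at h
      split_ifs at h with hex
      simp only [Option.some.injEq] at h
      subst h
      simp only [Sum.swap_inr, Option.some.injEq]
      exact Subtype.ext hex.choose_spec

theorem act_step_le (x : Fin n ⊕ Fin n) (a b : Submonoid.closure (Set.range (gp (rels Λ))))
    (h : (act Λ).step x a = some b) : a.1 * gr (rels Λ) x = b.1 := by
  rcases x with x | x
  · simp only [act, Option.some.injEq] at h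
    subst h
    rfl
  · simp only [act] at h
    split_ifs at h with hex
    simp only [Option.some.injEq] at h
    subst h
    have h1 : a.1 * gr (rels Λ) (Sum.inr x) =
        hex.choose.1 * (gp (rels Λ) x * gr (rels Λ) (Sum.inr x)) := by
      rw [← mul_assoc]
      exact congrArg (· * gr (rels Λ) (Sum.inr x)) hex.choose_spec.symm
    rw [h1, ← iv_gp, run_gp, mul_one]

theorem act_run_le (u : List (Fin n ⊕ Fin n)) :
    ∀ (a b : Submonoid.closure (Set.range (gp (rels Λ)))),
    (act Λ).run u a = some b → a.1 * ev (gr (rels Λ)) u = b.1 := by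
  induction u with
  | nil =>
    intro a b h
    simp only [Act.run, Option.some.injEq] at h
    rw [h, ev_nil, mul_one]
  | cons x u ih =>
    intro a b h
    simp only [Act.run] at h
    cases hx : (act Λ).step x a with
    | none => rw [hx] at h; simp at h
    | some c =>
      rw [hx] at h
      rw [ev_cons, ← mul_assoc, act_step_le x a c hx]
      exact ih c b h

theorem act_pos (u : List (Fin n)) (a : Submonoid.closure (Set.range (gp (rels Λ)))) :
    (act Λ).run (u.map Sum.inl) a = some (a * ⟨pv (rels Λ) u, pv_mem u⟩) := by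
  induction u generalizing a with
  | nil =>
    simp only [List.map_nil, Act.run, Option.some.injEq]
    exact Subtype.ext (mul_one _).symm
  | cons x u ih =>
    simp only [List.map_cons, Act.run]
    have h1 : (act Λ).step (Sum.inl x) a =
      some (a * ⟨gp (rels Λ) x, Submonoid.subset_closure ⟨x, rfl⟩⟩) := rfl
    rw [h1, Option.bind_some, ih]
    congr 1
    apply Subtype.ext
    show a.1 * gp (rels Λ) x * pv (rels Λ) u = a.1 * pv (rels Λ) (x :: u)
    rw [pv_cons, mul_assoc]

theorem act_rel (w : List (Fin n ⊕ Fin n)) (hw : w ∈ rels Λ)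
    (a : Submonoid.closure (Set.range (gp (rels Λ)))) : (act Λ).run w a = some a := by
  unfold rels at hw
  rcases List.mem_append.1 hw with h | h
  · obtain ⟨x, -, rfl⟩ := List.mem_map.1 h
    have := (act Λ).run_loop_some [Sum.inl x] a (by
      have := act_pos [x] a
      simp only [List.map_cons, List.map_nil] at this
      rw [this]; rfl)
    exact this
  · obtain ⟨p, hp, rfl⟩ := List.mem_map.1 h
    have h1 := act_pos p.1 a
    have h2 := act_pos p.2 a
    have h3 : (⟨pv (rels Λ) p.1, pv_mem p.1⟩ : Submonoid.closure (Set.range (gp (rels Λ)))) =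
      ⟨pv (rels Λ) p.2, pv_mem p.2⟩ := Subtype.ext (pv_eq_of_mem hp)
    rw [Act.run_append, h1, Option.bind_some, h3]
    exact (act Λ).run_nu _ _ _ h2

/-- right units are positive -/
theorem pos_of_right {s s' : SInv (rels Λ)} (h : s * s' = 1) :
    s ∈ Submonoid.closure (Set.range (gp (rels Λ))) := by
  obtain ⟨u, rfl⟩ := surj _ s
  have h1 := (isInv (rels Λ)).right h
  rw [iv_ev, ← ev_append, ev_gr] at h1
  have h2 := act_run (rels Λ) (act Λ) act_rel (u := u ++ nu u) (v := []) h1 1
  rw [Act.run_append] at h2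
  cases hu : (act Λ).run u 1 with
  | none => rw [hu] at h2; simp [Act.run] at h2
  | some b =>
    have := act_run_le u 1 b hu
    rw [show (1 : Submonoid.closure (Set.range (gp (rels Λ)))).1 = 1 from rfl, one_mul] at this
    rw [this]
    exact b.2

include H in
theorem isRightUnit_iff (s : SInv (rels Λ)) :
    IsRightUnit s ↔ s ∈ Submonoid.closure (Set.range (gp (rels Λ))) :=
  ⟨fun ⟨_, h⟩ => pos_of_right h, fun h => ⟨_, (shift H).unit_pos h⟩⟩

include H in
theorem sigma_iff (a b : SInv (rels Λ)) : Sigma a b ↔ (shift H).con a b :=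
  (shift H).sig_iff a b

include H in
theorem eUnitary : EUnitary (SInv (rels Λ)) := by
  intro e s f he hf h
  -- `e = f s`, so `f e = e` and ... `e s`?
  have hi := isInv (rels Λ)
  have h1 : f * e = e := by rw [h, ← mul_assoc, hf]
  -- `e ≤ s` gives `e = s * k` with `k` idempotent; use `e s = e`
  have h2 : e * s = e := by
    calc e * s = e * f * s := by rw [hi.idem_comm he hf, h1]
      _ = e * (f * s) := by rw [mul_assoc]
      _ = e := by rw [← h, he]
  exact (shift H).eunitary he h2

include H in
theorem rightReversible : PrefixRightReversible (SInv (rels Λ)) := by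
  intro a b ha hb
  obtain ⟨c, hc, d, hd, h⟩ := (shift H).reversible ((isRightUnit_iff H a).1 ha)
    ((isRightUnit_iff H b).1 hb)
  exact ⟨c, d, (isRightUnit_iff H c).2 hc, (isRightUnit_iff H d).2 hd,
    ⟨1, one_mul 1, by rw [h]⟩⟩

end good

end Pool.Agent.Q97.FF
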